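import Pool.Agent.E8helper66.ML.Zer

/-!
# The criterion in the half plane
-/

set_option autoImplicit false

open MeasureTheory Filter Topology Set Complex
open Pool.Agent.TH942.SL
open Pool.Agent.E8helper66.BM (Kr)

namespace Pool.Agent.E8helper66.ML

variable {h : ℝ → ℂ} {g : ℂ → ℂ} {w₀ X A : ℝ}

lemma pow_pZ (Z : Multiset ℂ) {z : ℂ} (hz : z ≠ 0) :
    (Z.map fun a => z - a).prod = z ^ (Multiset.card Z) * pZ Z z := by
  induction Z using Multiset.induction_on with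
  | empty => simp [pZ]
  | cons a Z ih =>
    have e2 : pZ (a ::ₘ Z) z = (1 - a / z) * pZ Z z := by simp [pZ]
    rw [Multiset.map_cons, Multiset.prod_cons, ih, e2, Multiset.card_cons, pow_succ]
    field_simp

/-- **Continuation implies growth, with zeros.** -/
theorem Pr.fwd (H : Pr h g w₀ X) {θ ε : ℝ} (hθ : 0 ≤ θ) (hε : θ < ε) {G : ℂ → ℂ}
    (hG : ∀ z ∈ HA θ, DifferentiableAt ℂ G z) (hGX : ∀ z ∈ HA θ, X < ‖z‖ → G z = exp (g z)) :
    ∃ Z : Multiset ℂ, (∀ a ∈ Z, a ∈ HA θ ∧ G a = 0) ∧ ∃ C : ℝ, 0 ≤ C ∧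
      ∀ l : ℝ, 0 < l → ‖h l + hZ Z l‖ ≤ C * Real.exp (ε * l) := by
  set B : ℝ := (θ + ε) / 2 with hB
  have hB1 : θ < B := by
    rw [hB]
    linarith
  have hB2 : B < ε := by
    rw [hB]
    linarith
  have hB0 : 0 ≤ B := by linarith
  have hX0 := H.X0
  set K : Set ℂ := {v : ℂ | B ≤ v.re ∧ ‖v‖ ≤ X + 1} with hK
  have hKc : IsCompact K := by
    have hcl : IsClosed K := by
      have e1 : IsClosed {v : ℂ | B ≤ v.re} := isClosed_le continuous_const Complex.continuous_re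
      have e3 : IsClosed {v : ℂ | ‖v‖ ≤ X + 1} := isClosed_le continuous_norm continuous_const
      exact e1.inter e3
    refine (isCompact_closedBall (0 : ℂ) (X + 1)).of_isClosed_subset hcl ?_
    rintro v ⟨-, h⟩
    rwa [Metric.mem_closedBall, dist_zero_right]
  have hKU : K ⊆ HA θ := fun v hv => lt_of_lt_of_le hB1 hv.1
  set p₀ : ℂ := ((X + θ + 1 : ℝ) : ℂ) with hp₀
  have hp₀n : ‖p₀‖ = X + θ + 1 := by
    rw [hp₀, Complex.norm_real, Real.norm_of_nonneg (by linarith)]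
  have hp₀A : p₀ ∈ HA θ := by
    change θ < p₀.re
    rw [hp₀, Complex.ofReal_re]
    linarith
  have hGp : G p₀ ≠ 0 := by
    rw [hGX p₀ hp₀A (by rw [hp₀n]; linarith)]
    exact Complex.exp_ne_zero _
  obtain ⟨Z, H₁, hZ1, hH1, hfac, hne⟩ := divide (HA_open θ) (HA_convex θ).isPreconnected hp₀A hG hGp
    hKc hKU
  refine ⟨Z, fun a ha => ⟨hKU (hZ1 a ha).1, (hZ1 a ha).2⟩, ?_⟩
  have HZ := H.withZ Z
  have hBθ : ∀ z ∈ HA B, z ∈ HA θ := fun z hz => HA_mono hB1.le hz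
  set G₂ : ℂ → ℂ := fun z => H₁ z * z ^ (Multiset.card Z) with hG₂
  have hfac2 : ∀ z ∈ HA θ, G z = pZ Z z * G₂ z := by
    intro z hz
    have hz0 := ne_zero' (HA_pos hθ hz)
    rw [hfac z hz, pow_pZ Z hz0, hG₂]
    ring
  refine HZ.free hB0 (G := G₂) (fun z hz => ?_) (fun z hz h0 => ?_) (fun z hz hzX => ?_) hB2
  · exact (hH1 z (hBθ z hz)).mul (differentiableAt_id.pow _)
  · have hz0 := ne_zero' (HA_pos hB0 hz)
    have h1 : H₁ z ≠ 0 := by
      rcases le_or_gt ‖z‖ (X + 1) with h2 | h2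
      · exact hne z ⟨le_of_lt hz, h2⟩
      · intro h3
        have h4 := hfac z (hBθ z hz)
        rw [h3, mul_zero, hGX z (hBθ z hz) (by linarith)] at h4
        exact Complex.exp_ne_zero _ h4
    rw [hG₂] at h0
    exact mul_ne_zero h1 (pow_ne_zero _ hz0) h0
  · have h1 : X < ‖z‖ := (le_max_left _ _).trans_lt hzX
    have h2 : ∀ a ∈ Z, ‖a‖ < ‖z‖ := fun a ha =>
      (lt_mx ha).trans_le ((le_max_right X (mx Z)).trans hzX.le)
    have h3 := exp_gZ Z h2
    have h4 := hfac2 z (hBθ z hz)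
    rw [hGX z (hBθ z hz) h1] at h4
    rw [Complex.exp_add, h4]
    linear_combination (-G₂ z) * h3

/-- two functions which agree far away -/
lemma HA_uniq {G₁ G₂ : ℂ → ℂ} (h1 : ∀ z ∈ HA A, DifferentiableAt ℂ G₁ z)
    (h2 : ∀ z ∈ HA A, DifferentiableAt ℂ G₂ z) {Y : ℝ}
    (h12 : ∀ z ∈ HA A, Y < ‖z‖ → G₁ z = G₂ z) {z : ℂ} (hz : z ∈ HA A) : G₁ z = G₂ z := by
  have a1 : AnalyticOnNhd ℂ G₁ (HA A) :=
    DifferentiableOn.analyticOnNhd (fun z hz => (h1 z hz).differentiableWithinAt) (HA_open A)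
  have a2 : AnalyticOnNhd ℂ G₂ (HA A) :=
    DifferentiableOn.analyticOnNhd (fun z hz => (h2 z hz).differentiableWithinAt) (HA_open A)
  set p : ℂ := ((|Y| + |A| + 1 : ℝ) : ℂ) with hp
  have hpr : p.re = |Y| + |A| + 1 := by rw [hp, Complex.ofReal_re]
  have hpA : p ∈ HA A := by
    change A < p.re
    rw [hpr]
    have := le_abs_self A
    have := abs_nonneg Y
    linarith
  have ho : IsOpen {w : ℂ | Y < w.re} := isOpen_lt continuous_const Complex.continuous_re
  refine a1.eqOn_of_preconnected_of_eventuallyEq a2 (HA_convex A).isPreconnected hpA ?_ hz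
  filter_upwards [ho.mem_nhds (show Y < p.re by
    rw [hpr]
    have := le_abs_self Y
    have := abs_nonneg A
    linarith), (HA_open A).mem_nhds hpA] with w h3 h4
  exact h12 w h4 (lt_of_lt_of_le h3 (re_le_norm w))

/-- **Growth implies continuation, one level.** -/
theorem Pr.bwd (H : Pr h g w₀ X) {ε : ℝ} (hε : 0 ≤ ε) {Z : Multiset ℂ} {K : ℝ}
    (hK : ∀ᶠ l : ℝ in atTop, ‖h l + hZ Z l‖ ≤ K * Real.exp (ε * l)) :
    ∃ f : ℂ → ℂ, (∀ z ∈ HA ε, DifferentiableAt ℂ f z) ∧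
      ∀ z ∈ HA ε, X < ‖z‖ → pZ Z z * exp (f z) = exp (g z) := by
  have HZ := H.withZ Z
  obtain ⟨f, hf, hff⟩ := HZ.ext hε (fun δ hδ => ⟨|K|, by
    filter_upwards [hK, eventually_gt_atTop 0] with l h1 hl
    refine h1.trans ?_
    have h2 : Real.exp (ε * l) ≤ Real.exp ((ε + δ) * l) := Real.exp_le_exp.2 (by
      have := mul_pos hδ hl
      linarith)
    calc K * Real.exp (ε * l) ≤ |K| * Real.exp (ε * l) :=
          mul_le_mul_of_nonneg_right (le_abs_self K) (Real.exp_pos _).le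
      _ ≤ _ := mul_le_mul_of_nonneg_left h2 (abs_nonneg K)⟩)
  refine ⟨f, hf, fun z hz hzX => ?_⟩
  -- far away
  have hfar : ∀ w ∈ HA ε, max X (mx Z) < ‖w‖ → pZ Z w * exp (f w) = exp (g w) := by
    intro w hw hwX
    have h2 : ∀ a ∈ Z, ‖a‖ < ‖w‖ := fun a ha =>
      (lt_mx ha).trans_le ((le_max_right X (mx Z)).trans hwX.le)
    rw [hff w hw hwX, Complex.exp_add]
    linear_combination (exp (g w)) * exp_gZ Z h2
  have hz0 := HA_pos hε hz
  set T : ℝ := max X (mx Z) + 1 with hT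
  have hT0 : 0 ≤ T := by
    have := H.X0
    have := le_max_left X (mx Z)
    linarith
  have hmem : ∀ t : ℝ, 0 ≤ t → z + (t : ℂ) ∈ HA ε := fun t ht => by
    change ε < (z + (t : ℂ)).re
    rw [Complex.add_re, Complex.ofReal_re]
    have : ε < z.re := hz
    linarith
  have hL : ∀ w ∈ HA ε, DifferentiableAt ℂ (fun z => pZ Z z * exp (f z)) w := fun w hw =>
    (pZ_diff Z (ne_zero' (HA_pos hε hw))).mul (hf w hw).cexp
  have hLa : AnalyticOnNhd ℂ (fun z => pZ Z z * exp (f z)) (HA ε) :=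
    DifferentiableOn.analyticOnNhd (fun z hz => (hL z hz).differentiableWithinAt) (HA_open ε)
  refine horiz_eq (f := fun z => pZ Z z * exp (f z)) (g := fun z => exp (g z)) hT0
    (fun t h0 _ => hLa _ (hmem t h0)) (fun t h0 _ => ?_) ?_
  · exact (H.ganalytic (HA_pos hε (hmem t h0)) (hzX.trans_le (norm_add_real hz0 h0))).cexp
  · have ho : IsOpen {w : ℂ | max X (mx Z) < w.re} :=
      isOpen_lt continuous_const Complex.continuous_re
    have h1 : max X (mx Z) < (z + (T : ℂ)).re := by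
      rw [Complex.add_re, Complex.ofReal_re, hT]
      linarith
    filter_upwards [ho.mem_nhds h1, (HA_open ε).mem_nhds (hmem T hT0)] with w h2 h3
    exact hfar w h3 (lt_of_lt_of_le h2 (re_le_norm w))

/-- **Gluing.** -/
theorem glue {θ : ℝ} {E : ℂ → ℂ}
    (hE : ∀ ε : ℝ, θ < ε → ∃ G : ℂ → ℂ, (∀ z ∈ HA ε, DifferentiableAt ℂ G z) ∧
      ∀ z ∈ HA ε, X < ‖z‖ → G z = E z) :
    ∃ G : ℂ → ℂ, (∀ z ∈ HA θ, DifferentiableAt ℂ G z) ∧ ∀ z ∈ HA θ, X < ‖z‖ → G z = E z := by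
  choose! G hGd hGE using hE
  have key : ∀ ε ε' : ℝ, θ < ε → ε ≤ ε' → ∀ z ∈ HA ε', G ε z = G ε' z := by
    intro ε ε' h1 h2 z hz
    exact HA_uniq (fun z hz => hGd ε h1 z (HA_mono h2 hz)) (hGd ε' (h1.trans_le h2))
      (fun z hz hzX => by
        rw [hGE ε h1 z (HA_mono h2 hz) hzX, hGE ε' (h1.trans_le h2) z hz hzX]) hz
  have hm : ∀ z ∈ HA θ, θ < (θ + z.re) / 2 ∧ z ∈ HA ((θ + z.re) / 2) := by
    intro z hz
    have hz' : θ < z.re := hz
    refine ⟨by linarith, ?_⟩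
    change (θ + z.re) / 2 < z.re
    linarith
  refine ⟨fun z => G ((θ + z.re) / 2) z, fun z hz => ?_, fun z hz hzX =>
    hGE _ (hm z hz).1 z (hm z hz).2 hzX⟩
  set ε : ℝ := (θ + z.re) / 2 with hε
  obtain ⟨h1, h2⟩ := hm z hz
  refine (hGd ε h1 z h2).congr_of_eventuallyEq ?_
  filter_upwards [(HA_open ε).mem_nhds h2] with w hw
  have hwθ : w ∈ HA θ := HA_mono h1.le hw
  obtain ⟨h3, h4⟩ := hm w hwθ
  rcases le_total ε ((θ + w.re) / 2) with h5 | h5
  · exact (key ε _ h1 h5 w h4).symm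
  · exact key _ ε h3 h5 w hw

/-- the order of the product -/
lemma order_pZ (Z : Multiset ℂ) {z : ℂ} (hz : z ≠ 0) :
    analyticOrderAt (pZ Z) z = (Z.count z : ℕ∞) := by
  classical
  induction Z using Multiset.induction_on with
  | empty =>
    have : pZ 0 = fun _ => 1 := by
      funext z
      simp [pZ]
    rw [this, Multiset.count_zero, Nat.cast_zero]
    exact analyticOrderAt_eq_zero.2 (Or.inr one_ne_zero)
  | cons a Z ih =>
    have h1 : pZ (a ::ₘ Z) = (fun z => 1 - a / z) * pZ Z := by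
      funext z
      simp [pZ]
    have ha1 : AnalyticAt ℂ (fun z : ℂ => 1 - a / z) z :=
      analyticAt_const.sub (analyticAt_const.div analyticAt_id hz)
    have ho : IsOpen {w : ℂ | w ≠ 0} := isOpen_ne
    have ha2 : AnalyticAt ℂ (pZ Z) z := by
      have h2 : DifferentiableOn ℂ (pZ Z) {w : ℂ | w ≠ 0} := fun w hw =>
        (pZ_diff Z hw).differentiableWithinAt
      exact h2.analyticAt (ho.mem_nhds hz)
    rw [h1, analyticOrderAt_mul ha1 ha2, ih, Multiset.count_cons]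
    by_cases hza : z = a
    · rw [if_pos hza]
      have h3 : analyticOrderAt (fun z : ℂ => 1 - a / z) z = 1 := by
        have h4 : HasDerivAt (fun z : ℂ => 1 - a / z) (a / z ^ 2) z := by
          have h5 : HasDerivAt (fun z : ℂ => a / z) (-a / z ^ 2) z := by
            have := (hasDerivAt_inv hz).const_mul a
            refine (this.congr_deriv ?_)
            field_simp
          refine ((hasDerivAt_const z (1 : ℂ)).sub h5).congr_deriv ?_
          ring
        refine ha1.analyticOrderAt_eq_one_of_zero_deriv_ne_zero ?_ ?_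
        · rw [← hza, div_self hz, sub_self]
        · rw [h4.deriv, ← hza]
          positivity
      rw [h3]
      push_cast
      ring
    · rw [if_neg hza, add_zero]
      have h3 : analyticOrderAt (fun z : ℂ => 1 - a / z) z = 0 := by
        refine ha1.analyticOrderAt_eq_zero.2 fun h0 => hza ?_
        have e1 : a / z = 1 := by linear_combination -h0
        rw [div_eq_one_iff_eq hz] at e1
        exact e1.symm
      rw [h3, zero_add]

/-- **The zeros.** -/
theorem Pr.order (H : Pr h g w₀ X) {ε : ℝ} (hε : 0 ≤ ε) {Z : Multiset ℂ} {K : ℝ}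
    (hK : ∀ᶠ l : ℝ in atTop, ‖h l + hZ Z l‖ ≤ K * Real.exp (ε * l)) {G : ℂ → ℂ}
    (hG : ∀ z ∈ HA ε, DifferentiableAt ℂ G z) (hGX : ∀ z ∈ HA ε, X < ‖z‖ → G z = exp (g z))
    {z : ℂ} (hz : z ∈ HA ε) : analyticOrderAt G z = (Z.count z : ℕ∞) := by
  obtain ⟨f, hf, hff⟩ := H.bwd hε hK
  have hz0 := ne_zero' (HA_pos hε hz)
  have h1 : ∀ w ∈ HA ε, G w = pZ Z w * exp (f w) := fun w hw =>
    HA_uniq hG (fun w hw => (pZ_diff Z (ne_zero' (HA_pos hε hw))).mul (hf w hw).cexp)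
      (fun w hw hwX => by
        rw [hGX w hw hwX]
        exact (hff w hw hwX).symm) hw
  have h2 : G =ᶠ[𝓝 z] (pZ Z * fun w => exp (f w)) := by
    filter_upwards [(HA_open ε).mem_nhds hz] with w hw
    exact h1 w hw
  have hfa : AnalyticOnNhd ℂ f (HA ε) :=
    DifferentiableOn.analyticOnNhd (fun z hz => (hf z hz).differentiableWithinAt) (HA_open ε)
  have ho : IsOpen {w : ℂ | w ≠ 0} := isOpen_ne
  have ha2 : AnalyticAt ℂ (pZ Z) z := by
    have h2 : DifferentiableOn ℂ (pZ Z) {w : ℂ | w ≠ 0} := fun w hw =>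
      (pZ_diff Z hw).differentiableWithinAt
    exact h2.analyticAt (ho.mem_nhds hz0)
  have ha3 : AnalyticAt ℂ (fun w => exp (f w)) z := (hfa z hz).cexp
  rw [analyticOrderAt_congr h2, analyticOrderAt_mul ha2 ha3, order_pZ Z hz0,
    ha3.analyticOrderAt_eq_zero.2 (Complex.exp_ne_zero _), add_zero]

end Pool.Agent.E8helper66.ML
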