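import Pool.Agent.E8helper69.AQ.Defs
import Mathlib.Analysis.SpecialFunctions.Gamma.Basic
import Mathlib.Analysis.Complex.Exponential

/-!
# The Mittag-Leffler sums of an elliptic curve over a number field
-/

set_option autoImplicit false

namespace Pool.Agent.E8helper66.MLE

open NumberField IsDedekindDomain

/-- The power sums `α^k + β^k` of the roots of `X² - a X + e`. -/
noncomputable def powerSum (a e : ℝ) : ℕ → ℝ
  | 0 => 2
  | 1 => a
  | (k + 2) => a * powerSum a e (k + 1) - e * powerSum a e k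

section
variable {K : Type} [Field K] [NumberField K]

open Classical in
/-- `p_k(v)`: the power sum of order `k` of the inverse roots of the Euler factor at `v`. -/
noncomputable def localSum (V : HeightOneSpectrum (𝓞 K) → WeierstrassCurve (𝓞 K))
    (v : HeightOneSpectrum (𝓞 K)) (k : ℕ) : ℝ :=
  powerSum (Pool.Agent.E8helper69.AQ.trace V v : ℝ)
    (if (V v).Δ ∈ v.asIdeal then 0 else ((Ideal.absNorm v.asIdeal : ℕ) : ℝ)) k

/-- The sum over all primes `v` and all `k ≥ 1` of `p_k(v) / (k Nv^k)` times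
`l ^ w / Γ(1 + w)`, where `w = k log Nv / κ`. -/
noncomputable def placeSum (V : HeightOneSpectrum (𝓞 K) → WeierstrassCurve (𝓞 K))
    (κ l : ℝ) : ℝ :=
  ∑' x : HeightOneSpectrum (𝓞 K) × ℕ,
    localSum V x.1 (x.2 + 1) /
        (((x.2 + 1 : ℕ) : ℝ) * ((Ideal.absNorm x.1.asIdeal : ℕ) : ℝ) ^ (x.2 + 1)) *
      (l ^ (((x.2 + 1 : ℕ) : ℝ) * Real.log (Ideal.absNorm x.1.asIdeal : ℕ) / κ) /
        Real.Gamma (1 + ((x.2 + 1 : ℕ) : ℝ) * Real.log (Ideal.absNorm x.1.asIdeal : ℕ) / κ))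

end

/-- The region `|Im s| < π / (2κ)`, `Re exp(κ (s - 1)) > θ`. -/
def Region (κ θ : ℝ) : Set ℂ :=
  {s | |κ * s.im| < Real.pi / 2 ∧ θ < (Complex.exp (κ * (s - 1))).re}

/-- The entire function `∑_{k ≥ 1} z^k / (k · k!)`, that is, `∫₀^z (e^t - 1)/t dt`. -/
noncomputable def ein (z : ℂ) : ℂ :=
  ∑' k : ℕ, z ^ (k + 1) / ((k + 1) * (k + 1).factorial)

end Pool.Agent.E8helper66.MLE
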