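import Pool.Agent.E8helper66.ML.Eul
import Pool.Agent.E8helper66.ML.EllDefs
import Pool.Agent.E8helper69.AQ.R

/-!
# The elliptic-curve instance
-/

set_option autoImplicit false

open Filter Topology Set Complex Asymptotics NumberField IsDedekindDomain
open Pool.Agent.E8helper66.BM (Kr)
open Pool.Agent.TH339.MP (nm two_le_nm av_triv FF differentiableOn_FF)
open Pool.Agent.E8helper69.AP (trace_eq eulerFactor_eq hasseWeil_eq E6 ielf elf_eq_inv ielf_slit
  norm_eb)
open Pool.Agent.E8helper69.AQ (trace eulerFactor hasseWeil MinimalModels)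
open Pool.Agent.E8helper66.MLE (powerSum localSum placeSum Region ein)

namespace Pool.Agent.E8helper66.ML

lemma powerSum_eq (a e : ℝ) : powerSum a e = ps a e := by
  funext k
  induction k using Nat.strong_induction_on with
  | _ k ih =>
    match k with
    | 0 => rfl
    | 1 => rfl
    | (k + 2) =>
      simp only [powerSum, ps]
      rw [ih (k + 1) (by omega), ih k (by omega)]

lemma ein_eq : ein = Ein := by
  funext z
  unfold ein Ein
  refine tsum_congr fun k => ?_
  push_cast
  rfl

lemma Region_eq : Region = Reg := rfl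

section
variable {K : Type} [Field K] [NumberField K]

instance countable_hos : Countable (HeightOneSpectrum (𝓞 K)) := by
  have h : (Function.support (fun v : HeightOneSpectrum (𝓞 K) =>
      (nm v : ℝ) ^ (-(2 : ℝ)))).Countable :=
    (Pool.Agent.W350.EdgeNF.hpow (K := K) 2 (by norm_num)).countable_support
  have h2 : Function.support (fun v : HeightOneSpectrum (𝓞 K) => (nm v : ℝ) ^ (-(2 : ℝ))) =
      Set.univ := by
    ext v
    simp only [Function.mem_support, Set.mem_univ, iff_true]
    have h3 := two_le_nm v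
    have h4 : (0 : ℝ) < nm v := by exact_mod_cast (by omega : 0 < nm v)
    exact (Real.rpow_pos_of_pos h4 _).ne'
  rw [h2] at h
  exact Set.countable_univ_iff.1 h

variable (V : HeightOneSpectrum (𝓞 K) → WeierstrassCurve (𝓞 K))

open Classical in
/-- the second coefficient of the Euler factor -/
noncomputable def ee (v : HeightOneSpectrum (𝓞 K)) : ℝ :=
  if (V v).Δ ∈ v.asIdeal then 0 else ((Ideal.absNorm v.asIdeal : ℕ) : ℝ)

lemma ep : EP (fun v : HeightOneSpectrum (𝓞 K) => ((Ideal.absNorm v.asIdeal : ℕ) : ℝ))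
    (fun v => ((trace V v : ℤ) : ℝ)) (ee V) 1 where
  b0 := by norm_num
  q2 v := by
    have := two_le_nm v
    exact_mod_cast this
  ha v := by
    rw [Real.rpow_one, trace_eq]
    exact av_triv V v
  he v := by
    rw [Real.rpow_one]
    unfold ee
    split_ifs
    · simp
    · simp
  sum := Pool.Agent.W350.EdgeNF.hpow (K := K) 2 (by norm_num)

lemma placeSum_eq (κ l : ℝ) : placeSum V κ l =
    AL (fun v : HeightOneSpectrum (𝓞 K) => ((Ideal.absNorm v.asIdeal : ℕ) : ℝ))
      (fun v => ((trace V v : ℤ) : ℝ)) (ee V) κ l := by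
  unfold placeSum AL localSum
  refine tsum_congr fun x => ?_
  rw [powerSum_eq]
  rfl

lemma analyticAt_hasseWeil {s : ℂ} (hs : 3 / 2 < s.re) : AnalyticAt ℂ (hasseWeil V) s := by
  have hopen : IsOpen {s : ℂ | 3 / 2 < s.re} := isOpen_lt continuous_const Complex.continuous_re
  have h1 : DifferentiableOn ℂ (fun s => exp (FF (Pool.Agent.E8helper69.AP.eb V) (s - 1 / 2)) * E6 V s)
      {s : ℂ | 3 / 2 < s.re} := by
    refine DifferentiableOn.mul ?_ ?_
    · refine DifferentiableOn.cexp ?_
      refine (differentiableOn_FF (norm_eb V)).comp (differentiableOn_id.sub_const _) ?_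
      intro z hz
      have hz' : 3 / 2 < z.re := hz
      simp only [Set.mem_ofPred_eq, Complex.sub_re]
      norm_num
      linarith
    · unfold E6
      refine DifferentiableOn.fun_finsetProd fun v _ => ?_
      intro z hz
      have hz' : 3 / 2 < z.re := hz
      have hq : ((nm v : ℕ) : ℂ) ≠ 0 := by
        have := two_le_nm v
        exact_mod_cast (by omega : nm v ≠ 0)
      have h2 : Differentiable ℂ (ielf V v) := by
        unfold ielf
        refine ((differentiable_const _).sub ((differentiable_const _).mul ?_)).add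
          ((differentiable_const _).mul ?_)
        · exact differentiable_id.neg.const_cpow (Or.inl hq)
        · exact ((differentiable_const _).mul differentiable_id).const_cpow (Or.inl hq)
      have h3 : Pool.Agent.TH339.MP.elf V v = fun s => (ielf V v s)⁻¹ := rfl
      rw [h3]
      exact ((h2 z).inv (Complex.slitPlane_ne_zero (ielf_slit V v hz'.le))).differentiableWithinAt
  have h2 : DifferentiableOn ℂ (hasseWeil V) {s : ℂ | 3 / 2 < s.re} :=
    h1.congr fun z hz => hasseWeil_eq V hz
  exact h2.analyticAt (hopen.mem_nhds hs)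

lemma hasseWeil_exp {s : ℂ} (hs : 1 + 3 < s.re) : hasseWeil V s =
    exp (∑' x, tv (fun v : HeightOneSpectrum (𝓞 K) => ((Ideal.absNorm v.asIdeal : ℕ) : ℝ))
      (fun v => ((trace V v : ℤ) : ℝ)) (ee V) s x) := by
  classical
  rw [← ((ep V).prod hs.le).tprod_eq]
  unfold hasseWeil
  refine tprod_congr fun v => ?_
  have hq0 : Ideal.absNorm v.asIdeal ≠ 0 := by
    have h := two_le_nm v
    have h2 : nm v = Ideal.absNorm v.asIdeal := rfl
    omega
  have hq : ((Ideal.absNorm v.asIdeal : ℕ) : ℂ) ≠ 0 := by exact_mod_cast hq0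
  unfold eulerFactor ee
  have e1 : ((Ideal.absNorm v.asIdeal : ℕ) : ℂ) ^ (-s) =
      exp (-(s * (Real.log ((Ideal.absNorm v.asIdeal : ℕ) : ℝ) : ℝ))) := by
    rw [cpow_def_of_ne_zero hq, ← Complex.natCast_log]
    congr 1
    ring
  have e2 : ((Ideal.absNorm v.asIdeal : ℕ) : ℂ) ^ (1 - 2 * s) = ((Ideal.absNorm v.asIdeal : ℕ) : ℂ) *
      (exp (-(s * (Real.log ((Ideal.absNorm v.asIdeal : ℕ) : ℝ) : ℝ)))) ^ 2 := by
    rw [← e1, ← cpow_nat_mul]
    have : (1 - 2 * s) = 1 + ((2 : ℕ) : ℂ) * -s := by
      push_cast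
      ring
    rw [this, cpow_add _ _ hq, cpow_one]
  rw [e1, e2]
  congr 1
  split_ifs
  · push_cast
    ring
  · push_cast
    ring

/-- the data -/
theorem ld_ell {κ : ℝ} (hκ : 0 < κ) :
    LD (hasseWeil V) (3 / 2) κ (fun l => (placeSum V κ l : ℂ)) := by
  have h := (ep V).ld (L := hasseWeil V) (σ₀ := 3 / 2) (by norm_num)
    (fun s hs => analyticAt_hasseWeil V hs) (fun s hs => hasseWeil_exp V hs) hκ
  have e : (fun l => (placeSum V κ l : ℂ)) = fun l => ((AL (fun v : HeightOneSpectrum (𝓞 K) =>
      ((Ideal.absNorm v.asIdeal : ℕ) : ℝ)) (fun v => ((trace V v : ℤ) : ℝ)) (ee V) κ l : ℝ) : ℂ) := by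
    funext l
    rw [placeSum_eq]
  rw [e]
  exact h

end

end Pool.Agent.E8helper66.ML
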