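import Pool.Agent.E8helper66.ML.Pla

/-!
# Euler products of degree two
-/

set_option autoImplicit false

open MeasureTheory Filter Topology Set Complex Asymptotics
open Pool.Agent.TH942.SL
open Pool.Agent.E8helper66.BM (Kr)

namespace Pool.Agent.E8helper66.ML

/-- the power sums `α^k + β^k` of the roots of `X² - a X + e` -/
noncomputable def ps (a e : ℝ) : ℕ → ℝ
  | 0 => 2
  | 1 => a
  | (k + 2) => a * ps a e (k + 1) - e * ps a e k

lemma ps_bound {a e Q : ℝ} (hQ : 1 ≤ Q) (ha : |a| ≤ Q) (he : |e| ≤ Q) (k : ℕ) :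
    |ps a e k| ≤ 2 * (2 * Q) ^ k := by
  induction k using Nat.strong_induction_on with
  | _ k ih =>
    match k with
    | 0 => simp [ps]
    | 1 =>
      simp only [ps, pow_one]
      linarith
    | (k + 2) =>
      have h1 := ih (k + 1) (by omega)
      have h2 := ih k (by omega)
      simp only [ps]
      have hp : 0 ≤ (2 * Q) ^ k := by positivity
      calc |a * ps a e (k + 1) - e * ps a e k| ≤ |a| * |ps a e (k + 1)| + |e| * |ps a e k| := by
            rw [← abs_mul, ← abs_mul]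
            exact abs_sub _ _
        _ ≤ Q * (2 * (2 * Q) ^ (k + 1)) + Q * (2 * (2 * Q) ^ k) := by gcongr
        _ = 2 * (2 * Q) ^ k * (2 * Q * Q + Q) := by ring
        _ ≤ 2 * (2 * Q) ^ k * (4 * Q * Q) := by
            refine mul_le_mul_of_nonneg_left ?_ (by positivity)
            nlinarith
        _ = 2 * (2 * Q) ^ (k + 2) := by ring

/-- the roots -/
lemma exists_roots (a e : ℂ) : ∃ α β : ℂ, α + β = a ∧ α * β = e := by
  obtain ⟨r, hr⟩ := IsAlgClosed.exists_pow_nat_eq (a ^ 2 - 4 * e) (n := 2) (by norm_num)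
  refine ⟨(a + r) / 2, (a - r) / 2, by ring, ?_⟩
  linear_combination (-1 / 4) * hr

lemma ps_roots {a e : ℝ} {α β : ℂ} (h1 : α + β = a) (h2 : α * β = e) (k : ℕ) :
    ((ps a e k : ℝ) : ℂ) = α ^ k + β ^ k := by
  induction k using Nat.strong_induction_on with
  | _ k ih =>
    match k with
    | 0 =>
      simp only [ps, pow_zero]
      norm_num
    | 1 => simp only [ps, pow_one, h1]
    | (k + 2) =>
      have e1 := ih (k + 1) (by omega)
      have e2 := ih k (by omega)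
      simp only [ps]
      push_cast
      rw [e1, e2, ← h1, ← h2]
      ring

lemma root_le {Q : ℝ} (hQ : 1 ≤ Q) {α : ℂ} {a e : ℝ} (ha : |a| ≤ Q) (he : |e| ≤ Q)
    (h : α ^ 2 = a * α - e) : ‖α‖ ≤ 2 * Q := by
  by_contra hcon
  push Not at hcon
  have h1 : ‖α‖ ^ 2 ≤ Q * ‖α‖ + Q := by
    rw [← norm_pow, h]
    refine (norm_sub_le _ _).trans ?_
    rw [norm_mul, Complex.norm_real, Complex.norm_real, Real.norm_eq_abs, Real.norm_eq_abs]
    have := mul_le_mul_of_nonneg_right ha (norm_nonneg α)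
    linarith
  nlinarith

/-- **The local factor.** -/
theorem local_exp {Q : ℝ} (hQ : 1 ≤ Q) {a e : ℝ} (ha : |a| ≤ Q) (he : |e| ≤ Q) {T : ℂ}
    (hT : 2 * Q * ‖T‖ < 1) :
    exp (∑' k : ℕ, (ps a e (k + 1) : ℂ) / ((k + 1 : ℕ) : ℂ) * T ^ (k + 1)) =
      (1 - a * T + e * T ^ 2)⁻¹ := by
  obtain ⟨α, β, h1, h2⟩ := exists_roots (a : ℂ) e
  have hαn : ‖α‖ ≤ 2 * Q := root_le hQ ha he (by rw [← h1, ← h2]; ring)
  have hβn : ‖β‖ ≤ 2 * Q := root_le hQ ha he (by rw [← h1, ← h2]; ring)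
  have key : ∀ x : ℂ, ‖x‖ ≤ 2 * Q → ‖x * T‖ < 1 := fun x hx => by
    rw [norm_mul]
    exact lt_of_le_of_lt (mul_le_mul_of_nonneg_right hx (norm_nonneg T)) hT
  have hne : ∀ x : ℂ, ‖x‖ ≤ 2 * Q → 1 - x * T ≠ 0 := fun x hx h0 => by
    have h3 := key x hx
    have h4 : x * T = 1 := by linear_combination -h0
    rw [h4, norm_one] at h3
    exact lt_irrefl _ h3
  have hs : ∀ x : ℂ, ‖x‖ ≤ 2 * Q →
      HasSum (fun k : ℕ => (x * T) ^ (k + 1) / ((k + 1 : ℕ) : ℂ)) (-log (1 - x * T)) := by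
    intro x hx
    have h3 := Complex.hasSum_taylorSeries_neg_log (key x hx)
    have h4 := (hasSum_nat_add_iff' 1).2 h3
    simp only [Finset.range_one, Finset.sum_singleton, pow_zero, Nat.cast_zero, div_zero,
      sub_zero] at h4
    exact h4
  have h5 := (hs α hαn).add (hs β hβn)
  have h6 : (fun k : ℕ => (ps a e (k + 1) : ℂ) / ((k + 1 : ℕ) : ℂ) * T ^ (k + 1)) =
      fun k : ℕ => (α * T) ^ (k + 1) / ((k + 1 : ℕ) : ℂ) + (β * T) ^ (k + 1) / ((k + 1 : ℕ) : ℂ) := by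
    funext k
    rw [ps_roots h1 h2, mul_pow, mul_pow]
    ring
  rw [h6, h5.tsum_eq, Complex.exp_add, Complex.exp_neg, Complex.exp_neg,
    Complex.exp_log (hne α hαn), Complex.exp_log (hne β hβn), ← mul_inv]
  congr 1
  rw [← h1, ← h2]
  ring

/-- the data of an Euler product; `b` bounds the local parameters -/
structure EP {ι : Type*} (q a e : ι → ℝ) (b : ℝ) : Prop where
  b0 : 0 ≤ b
  q2 : ∀ v, 2 ≤ q v
  ha : ∀ v, |a v| ≤ q v ^ b
  he : ∀ v, |e v| ≤ q v ^ b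
  sum : Summable fun v => q v ^ (-(2 : ℝ))

section
variable {ι : Type*} {q a e : ι → ℝ} {b : ℝ}

/-- the exponents -/
noncomputable def wv (q : ι → ℝ) (κ : ℝ) (x : ι × ℕ) : ℝ :=
  ((x.2 + 1 : ℕ) : ℝ) * Real.log (q x.1) / κ

/-- the coefficients, centre `1` -/
noncomputable def cvr (q a e : ι → ℝ) (x : ι × ℕ) : ℝ :=
  ps (a x.1) (e x.1) (x.2 + 1) / (((x.2 + 1 : ℕ) : ℝ) * q x.1 ^ (x.2 + 1))

/-- the terms of the logarithm -/
noncomputable def tv (q a e : ι → ℝ) (s : ℂ) (x : ι × ℕ) : ℂ :=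
  (ps (a x.1) (e x.1) (x.2 + 1) : ℂ) / ((x.2 + 1 : ℕ) : ℂ) * (exp (-(s * Real.log (q x.1)))) ^ (x.2 + 1)

lemma EP.q0 (H : EP q a e b) (v : ι) : 0 < q v := by linarith [H.q2 v]

lemma EP.Q1 (H : EP q a e b) (v : ι) : 1 ≤ q v ^ b :=
  Real.one_le_rpow (by linarith [H.q2 v]) H.b0

lemma norm_T {q : ℝ} (hq : 0 < q) (s : ℂ) : ‖exp (-(s * Real.log q))‖ = q ^ (-s.re) := by
  rw [Complex.norm_exp, Complex.neg_re, Complex.re_mul_ofReal, Real.rpow_def_of_pos hq]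
  congr 1
  ring

/-- the size of `T` -/
lemma EP.small (H : EP q a e b) (v : ι) {σ : ℝ} (hσ : b + 3 ≤ σ) :
    2 * q v ^ b * q v ^ (-σ) ≤ q v ^ (-(2 : ℝ)) := by
  have hq := H.q0 v
  have h1 : q v ^ b * q v ^ (-σ) ≤ q v ^ (-(3 : ℝ)) := by
    rw [← Real.rpow_add hq]
    exact Real.rpow_le_rpow_of_exponent_le (by linarith [H.q2 v]) (by linarith)
  have h2 : q v ^ (-(3 : ℝ)) = (q v)⁻¹ * q v ^ (-(2 : ℝ)) := by
    rw [← Real.rpow_neg_one, ← Real.rpow_add hq]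
    norm_num
  have h3 : (q v)⁻¹ ≤ 1 / 2 := by
    rw [inv_le_comm₀ hq (by norm_num)]
    norm_num
    exact H.q2 v
  have h4 : 0 ≤ q v ^ (-(2 : ℝ)) := Real.rpow_nonneg hq.le _
  nlinarith

lemma EP.two (H : EP q a e b) (v : ι) : q v ^ (-(2 : ℝ)) ≤ 1 / 4 := by
  have hq := H.q0 v
  have h1 : q v ^ (-(2 : ℝ)) = (q v ^ 2)⁻¹ := by
    rw [Real.rpow_neg hq.le]
    norm_num
  rw [h1, inv_le_comm₀ (by positivity) (by norm_num)]
  have := H.q2 v
  nlinarith

/-- the majorant -/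
lemma EP.maj (H : EP q a e b) :
    Summable fun x : ι × ℕ => 2 * q x.1 ^ (-(2 : ℝ)) * (1 / 4 : ℝ) ^ x.2 := by
  have h1 : Summable fun v => 2 * q v ^ (-(2 : ℝ)) := H.sum.mul_left 2
  have h2 : Summable fun k : ℕ => (1 / 4 : ℝ) ^ k :=
    summable_geometric_of_lt_one (by norm_num) (by norm_num)
  exact h1.mul_of_nonneg h2 (fun v => by
    have := Real.rpow_nonneg (H.q0 v).le (-(2 : ℝ))
    positivity) fun k => by positivity

/-- the bound for the terms -/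
lemma EP.bound (H : EP q a e b) {σ : ℝ} (hσ : b + 3 ≤ σ) (x : ι × ℕ) :
    |ps (a x.1) (e x.1) (x.2 + 1)| / ((x.2 + 1 : ℕ) : ℝ) * (q x.1 ^ (-σ)) ^ (x.2 + 1) ≤
      2 * q x.1 ^ (-(2 : ℝ)) * (1 / 4 : ℝ) ^ x.2 := by
  have hq := H.q0 x.1
  have h1 := ps_bound (H.Q1 x.1) (H.ha x.1) (H.he x.1) (x.2 + 1)
  have h2 := H.small x.1 hσ
  have h3 : 0 ≤ q x.1 ^ (-σ) := Real.rpow_nonneg hq.le _
  have h4 : 0 ≤ q x.1 ^ (-(2 : ℝ)) := Real.rpow_nonneg hq.le _
  have h5 : 0 ≤ q x.1 ^ b := Real.rpow_nonneg hq.le _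
  have h6 : (1 : ℝ) ≤ ((x.2 + 1 : ℕ) : ℝ) := by
    push_cast
    have : (0 : ℝ) ≤ x.2 := Nat.cast_nonneg _
    linarith
  calc _ ≤ |ps (a x.1) (e x.1) (x.2 + 1)| * (q x.1 ^ (-σ)) ^ (x.2 + 1) := by
        refine mul_le_mul_of_nonneg_right ?_ (by positivity)
        exact div_le_self (abs_nonneg _) h6
    _ ≤ 2 * (2 * q x.1 ^ b) ^ (x.2 + 1) * (q x.1 ^ (-σ)) ^ (x.2 + 1) :=
        mul_le_mul_of_nonneg_right h1 (by positivity)
    _ = 2 * (2 * q x.1 ^ b * q x.1 ^ (-σ)) ^ (x.2 + 1) := by rw [mul_pow]; ring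
    _ ≤ 2 * (q x.1 ^ (-(2 : ℝ))) ^ (x.2 + 1) := by gcongr
    _ = 2 * q x.1 ^ (-(2 : ℝ)) * (q x.1 ^ (-(2 : ℝ))) ^ x.2 := by ring
    _ ≤ _ := by
        refine mul_le_mul_of_nonneg_left ?_ (by positivity)
        exact pow_le_pow_left₀ h4 (H.two x.1) _

lemma norm_tv (H : EP q a e b) (s : ℂ) (x : ι × ℕ) : ‖tv q a e s x‖ =
    |ps (a x.1) (e x.1) (x.2 + 1)| / ((x.2 + 1 : ℕ) : ℝ) * (q x.1 ^ (-s.re)) ^ (x.2 + 1) := by
  unfold tv
  rw [norm_mul, norm_div, Complex.norm_real, Complex.norm_natCast, norm_pow, norm_T (H.q0 x.1),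
    Real.norm_eq_abs]

lemma EP.tv_sum (H : EP q a e b) {s : ℂ} (hs : b + 3 ≤ s.re) : Summable (tv q a e s) :=
  Summable.of_norm_bounded H.maj fun x => by
    rw [norm_tv H]
    exact H.bound hs x

/-- **The Euler product.** -/
theorem EP.prod (H : EP q a e b) {s : ℂ} (hs : b + 3 ≤ s.re) :
    HasProd (fun v => (1 - a v * exp (-(s * Real.log (q v))) +
      e v * (exp (-(s * Real.log (q v)))) ^ 2)⁻¹) (exp (∑' x, tv q a e s x)) := by
  have h1 := (H.tv_sum hs).hasSum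
  have h2 : ∀ v, Summable fun k : ℕ => tv q a e s (v, k) := fun v =>
    (H.tv_sum hs).prod_factor v
  have h3 := (h1.prod_fiberwise fun v => (h2 v).hasSum).cexp
  have h4 : (fun v => (1 - a v * exp (-(s * Real.log (q v))) +
      e v * (exp (-(s * Real.log (q v)))) ^ 2)⁻¹) = exp ∘ fun v => ∑' k : ℕ, tv q a e s (v, k) := by
    funext v
    have h5 := local_exp (H.Q1 v) (H.ha v) (H.he v) (T := exp (-(s * Real.log (q v)))) (by
      rw [norm_T (H.q0 v)]
      have h6 := H.small v hs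
      have h7 := H.two v
      linarith)
    simp only [Function.comp_apply]
    rw [← h5]
    rfl
  rw [h4]
  exact h3

/-- the exponents are bounded below -/
lemma EP.wge (H : EP q a e b) {κ : ℝ} (hκ : 0 < κ) (x : ι × ℕ) : Real.log 2 / κ ≤ wv q κ x := by
  unfold wv
  refine div_le_div_of_nonneg_right ?_ hκ.le
  have h1 : Real.log 2 ≤ Real.log (q x.1) := Real.log_le_log (by norm_num) (H.q2 x.1)
  have h2 : 0 < Real.log 2 := Real.log_pos (by norm_num)
  have h6 : (1 : ℝ) ≤ ((x.2 + 1 : ℕ) : ℝ) := by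
    push_cast
    have : (0 : ℝ) ≤ x.2 := Nat.cast_nonneg _
    linarith
  calc Real.log 2 = 1 * Real.log 2 := (one_mul _).symm
    _ ≤ _ := mul_le_mul h6 h1 h2.le (by positivity)

/-- the threshold -/
noncomputable def Xb (κ b : ℝ) : ℝ := Real.exp (κ * (b + 2))

/-- **The series.** -/
theorem EP.ser (H : EP q a e b) {κ : ℝ} (hκ : 0 < κ) :
    Ser (wv q κ) (fun x => (cvr q a e x : ℂ)) (Real.log 2 / κ) (Xb κ b) where
  w0 := div_pos (Real.log_pos (by norm_num)) hκ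
  X1 := Real.one_le_exp (mul_nonneg hκ.le (by linarith [H.b0]))
  ge := H.wge hκ
  sum := by
    refine Summable.of_nonneg_of_le (fun x => by
      have := (Real.exp_pos (κ * (b + 2))).le
      unfold Xb
      positivity) (fun x => ?_) H.maj
    refine le_trans (le_of_eq ?_) (H.bound (le_refl (b + 3)) x)
    have hq := H.q0 x.1
    have hk : (0 : ℝ) < ((x.2 + 1 : ℕ) : ℝ) := by positivity
    unfold cvr Xb wv
    rw [Complex.norm_real, Real.norm_eq_abs, abs_div, abs_of_pos (by positivity : 0 <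
      ((x.2 + 1 : ℕ) : ℝ) * q x.1 ^ (x.2 + 1)), ← Real.exp_mul]
    have e1 : κ * (b + 2) * -(((x.2 + 1 : ℕ) : ℝ) * Real.log (q x.1) / κ) =
        ((x.2 + 1 : ℕ) : ℝ) * (-((b + 2) * Real.log (q x.1))) := by
      field_simp
    have e2 : Real.exp (-((b + 2) * Real.log (q x.1))) = q x.1 * q x.1 ^ (-(b + 3)) := by
      have : q x.1 * q x.1 ^ (-(b + 3)) = q x.1 ^ (1 + -(b + 3)) := by
        rw [Real.rpow_add hq, Real.rpow_one]
      rw [this, Real.rpow_def_of_pos hq]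
      congr 1
      ring
    rw [e1, Real.exp_nat_mul, e2, mul_pow]
    field_simp

/-- the series in terms of `s` -/
theorem EP.gs_eq (H : EP q a e b) {κ : ℝ} (hκ : 0 < κ) {s : ℂ} (hs : |κ * s.im| < Real.pi / 2) :
    gs (wv q κ) (fun x => (cvr q a e x : ℂ)) (ez κ s) = ∑' x, tv q a e s x := by
  unfold gs
  refine tsum_congr fun x => ?_
  have hq := H.q0 x.1
  have hκc : (κ : ℂ) ≠ 0 := by exact_mod_cast hκ.ne'
  have hlog : log (ez κ s) = κ * (s - 1) := by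
    have hpi := Real.pi_pos
    have h3 : ((κ : ℂ) * (s - 1)).im = κ * s.im := by simp
    have h4 := abs_lt.1 hs
    unfold ez
    rw [Complex.log_exp (by rw [h3]; linarith) (by rw [h3]; linarith)]
  have hk : ((x.2 + 1 : ℕ) : ℂ) ≠ 0 := Nat.cast_ne_zero.2 (Nat.succ_ne_zero x.2)
  have e1 : -((wv q κ x : ℂ) * log (ez κ s)) =
      ((x.2 + 1 : ℕ) : ℂ) * (-(s * Real.log (q x.1)) + Real.log (q x.1)) := by
    rw [hlog]
    unfold wv
    push_cast
    field_simp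
    ring
  have e2 : exp ((Real.log (q x.1) : ℝ) : ℂ) = (q x.1 : ℂ) := by
    rw [← Complex.ofReal_exp, Real.exp_log hq]
  have hqc : ((q x.1 : ℝ) : ℂ) ≠ 0 := by exact_mod_cast hq.ne'
  rw [e1, Complex.exp_nat_mul, Complex.exp_add, e2, mul_pow]
  unfold cvr tv
  push_cast
  field_simp

variable [Countable ι]

/-- the sum over the places and the powers -/
noncomputable def AL (q a e : ι → ℝ) (κ l : ℝ) : ℝ :=
  ∑' x : ι × ℕ, cvr q a e x * Kr l (wv q κ x)

omit [Countable ι] in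
lemma AL_eq (κ l : ℝ) : ((AL q a e κ l : ℝ) : ℂ) =
    WL (wv q κ) (fun x => (cvr q a e x : ℂ)) l := by
  unfold AL WL
  rw [Complex.ofReal_tsum]
  refine tsum_congr fun x => ?_
  push_cast
  rfl

/-- **The data of an Euler product.** -/
theorem EP.ld (H : EP q a e b) {L : ℂ → ℂ} {σ₀ : ℝ} (hσ : σ₀ ≤ b + 3)
    (han : ∀ s : ℂ, σ₀ < s.re → AnalyticAt ℂ L s)
    (hL : ∀ s : ℂ, b + 3 < s.re → L s = exp (∑' x, tv q a e s x)) {κ : ℝ} (hκ : 0 < κ) :
    LD L σ₀ κ (fun l => (AL q a e κ l : ℂ)) where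
  κ0 := hκ
  an := han
  ex := by
    refine ⟨_, _, _, (H.ser hκ).pr.congr (fun l _ => AL_eq κ l) fun _ _ _ => rfl, ?_,
      fun s hs hX => ?_⟩
    · unfold Xb
      exact Real.exp_le_exp.2 (mul_le_mul_of_nonneg_left (by linarith) hκ.le)
    · have h1 : b + 3 < s.re := by
        rw [norm_ez] at hX
        unfold Xb at hX
        rw [Real.exp_lt_exp] at hX
        have := lt_of_mul_lt_mul_left hX hκ.le
        linarith
      rw [hL s h1, H.gs_eq hκ hs]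

end

end Pool.Agent.E8helper66.ML
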