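import Pool.Agent.E8helper66.ML.Ser
import Pool.Agent.TH942.SL.Up

/-!
# Growth and continuation
-/

set_option autoImplicit false

open MeasureTheory Filter Topology Set Complex
open Pool.Agent.TH942.SL

namespace Pool.Agent.E8helper66.ML

/-- the half plane -/
def HA (A : ℝ) : Set ℂ := {z | A < z.re}

lemma HA_open (A : ℝ) : IsOpen (HA A) := isOpen_lt continuous_const Complex.continuous_re

lemma HA_convex (A : ℝ) : Convex ℝ (HA A) := convex_halfSpace_re_gt A

lemma HA_pos {A : ℝ} (hA : 0 ≤ A) {z : ℂ} (hz : z ∈ HA A) : 0 < z.re := lt_of_le_of_lt hA hz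

lemma HA_mono {A B : ℝ} (h : A ≤ B) : HA B ⊆ HA A := fun _ hz => lt_of_le_of_lt h hz

/-- equality along horizontal rays -/
lemma horiz_eq {f g : ℂ → ℂ} {z : ℂ} {T : ℝ} (hT : 0 ≤ T)
    (hf : ∀ t : ℝ, 0 ≤ t → t ≤ T → AnalyticAt ℂ f (z + t))
    (hg : ∀ t : ℝ, 0 ≤ t → t ≤ T → AnalyticAt ℂ g (z + t))
    (h : f =ᶠ[𝓝 (z + (T : ℂ))] g) : f z = g z := by
  set S : Set ℂ := (fun t : ℝ => z + (t : ℂ)) '' Icc 0 T with hS
  have hSc : IsPreconnected S := isPreconnected_Icc.image _ (by fun_prop)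
  have h1 : AnalyticOnNhd ℂ f S := by
    rintro _ ⟨t, ht, rfl⟩
    exact hf t ht.1 ht.2
  have h2 : AnalyticOnNhd ℂ g S := by
    rintro _ ⟨t, ht, rfl⟩
    exact hg t ht.1 ht.2
  have h3 := h1.eqOn_of_preconnected_of_eventuallyEq h2 hSc (show z + (T : ℂ) ∈ S from
    ⟨T, ⟨hT, le_rfl⟩, rfl⟩) h
  have h4 : z ∈ S := ⟨0, ⟨le_rfl, hT⟩, by simp⟩
  exact h3 h4

variable {h : ℝ → ℂ} {g : ℂ → ℂ} {w₀ X A : ℝ}

/-- the Laplace transform is holomorphic -/
theorem LC_diff (hm : AEStronglyMeasurable h (volume.restrict (Ioi 0)))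
    (hb : ∀ ε : ℝ, 0 < ε → ∃ K : ℝ, ∀ l : ℝ, 0 < l → ‖h l‖ ≤ K * Real.exp ((A + ε) * l)) {z : ℂ}
    (hz : A < z.re) : DifferentiableAt ℂ (LC h) z := by
  set δ : ℝ := (z.re - A) / 4 with hδ
  have hδ0 : 0 < δ := by
    rw [hδ]
    linarith
  obtain ⟨K, hK⟩ := hb δ hδ0
  have hK0 : 0 ≤ K := by
    have h1 := (norm_nonneg _).trans (hK 1 one_pos)
    exact nonneg_of_mul_nonneg_left h1 (Real.exp_pos _)
  set s : Set ℂ := {w | z.re - δ < w.re} with hs
  have hso : IsOpen s := isOpen_lt continuous_const Complex.continuous_re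
  have hzs : z ∈ s := by
    change z.re - δ < z.re
    linarith
  have hb1 : ∀ w ∈ s, ∀ l : ℝ, 0 < l → ‖h l * exp (-(w * l))‖ ≤ K * Real.exp (-(2 * δ) * l) := by
    intro w hw l hl
    have hw' : z.re - δ < w.re := hw
    rw [norm_mul, Complex.norm_exp, Complex.neg_re, Complex.re_mul_ofReal]
    calc ‖h l‖ * Real.exp (-(w.re * l)) ≤ K * Real.exp ((A + δ) * l) * Real.exp (-(w.re * l)) :=
          mul_le_mul_of_nonneg_right (hK l hl) (Real.exp_pos _).le
      _ = K * Real.exp ((A + δ) * l + -(w.re * l)) := by rw [mul_assoc, ← Real.exp_add]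
      _ ≤ _ := by
        refine mul_le_mul_of_nonneg_left (Real.exp_le_exp.2 ?_) hK0
        have e1 : A = z.re - 4 * δ := by rw [hδ]; ring
        have e2 : (z.re - δ) * l ≤ w.re * l := mul_le_mul_of_nonneg_right hw'.le hl.le
        rw [e1]
        nlinarith
  have hexpm : ∀ w : ℂ, AEStronglyMeasurable (fun l : ℝ => h l * exp (-(w * l)))
      (volume.restrict (Ioi 0)) := fun w => hm.mul (by fun_prop)
  have hbi : Integrable (fun l : ℝ => K / δ * Real.exp (-δ * l)) (volume.restrict (Ioi 0)) :=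
    (integrableOn_exp_mul_Ioi (by linarith) 0).const_mul _
  have hbi0 : Integrable (fun l : ℝ => K * Real.exp (-(2 * δ) * l)) (volume.restrict (Ioi 0)) :=
    (integrableOn_exp_mul_Ioi (by linarith) 0).const_mul _
  have key := hasDerivAt_integral_of_dominated_loc_of_deriv_le (𝕜 := ℂ) (F := fun w (l : ℝ) =>
    h l * exp (-(w * l))) (x₀ := z) (bound := fun l : ℝ => K / δ * Real.exp (-δ * l))
    (μ := volume.restrict (Ioi 0)) (hso.mem_nhds hzs) (Eventually.of_forall hexpm)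
    (Integrable.mono' hbi0 (hexpm z) (by
      filter_upwards [ae_restrict_mem measurableSet_Ioi] with l hl
      exact hb1 z hzs l hl))
    (F' := fun w (l : ℝ) => h l * exp (-(w * l)) * (-(l : ℂ)))
    ((hexpm z).mul (by fun_prop)) (by
      filter_upwards [ae_restrict_mem measurableSet_Ioi] with l hl w hw
      have hl0 : (0 : ℝ) < l := hl
      rw [norm_mul, norm_neg, Complex.norm_real, Real.norm_of_nonneg hl0.le]
      have h1 : l ≤ Real.exp (δ * l) / δ := by
        rw [le_div_iff₀ hδ0]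
        have := Real.add_one_le_exp (δ * l)
        linarith
      calc ‖h l * exp (-(w * l))‖ * l ≤ (K * Real.exp (-(2 * δ) * l)) * (Real.exp (δ * l) / δ) :=
            mul_le_mul (hb1 w hw l hl0) h1 hl0.le (by positivity)
        _ = K / δ * (Real.exp (-(2 * δ) * l) * Real.exp (δ * l)) := by ring
        _ = _ := by
          rw [← Real.exp_add]
          congr 2
          ring) hbi (by
      refine Eventually.of_forall fun l w _ => ?_
      have h1 : HasDerivAt (fun w : ℂ => -(w * l)) (-(1 * (l : ℂ))) w :=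
        ((hasDerivAt_id w).mul_const _).neg
      refine (h1.cexp.const_mul (h l)).congr_deriv ?_
      ring)
  exact key.2.differentiableAt

/-- eventual growth and growth -/
lemma Pr.grow (H : Pr h g w₀ X) {a : ℝ} (ha : 0 ≤ a) {K : ℝ}
    (hK : ∀ᶠ l : ℝ in atTop, ‖h l‖ ≤ K * Real.exp (a * l)) :
    ∃ K' : ℝ, 0 ≤ K' ∧ ∀ l : ℝ, 0 < l → ‖h l‖ ≤ K' * Real.exp (a * l) := by
  obtain ⟨l₀, hl₀⟩ := hK.exists_forall_of_atTop
  obtain ⟨B, hB, h1⟩ := H.triv
  refine ⟨B * Real.exp (X * |l₀|) + |K|, by positivity, fun l hl => ?_⟩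
  have he : 1 ≤ Real.exp (a * l) := Real.one_le_exp (by positivity)
  rcases le_total l l₀ with h2 | h2
  · have h3 : B * Real.exp (X * l) ≤ B * Real.exp (X * |l₀|) := by
      refine mul_le_mul_of_nonneg_left (Real.exp_le_exp.2 ?_) hB
      exact mul_le_mul_of_nonneg_left (h2.trans (le_abs_self _)) H.X0.le
    have h4 := h1 l hl
    have h5 : 0 ≤ B * Real.exp (X * |l₀|) := by positivity
    have h6 := abs_nonneg K
    nlinarith
  · refine (hl₀ l h2).trans ?_
    refine mul_le_mul_of_nonneg_right ?_ (Real.exp_pos _).le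
    have h5 : 0 ≤ B * Real.exp (X * |l₀|) := by positivity
    linarith [le_abs_self K]

lemma Pr.ganalytic (H : Pr h g w₀ X) {z : ℂ} (hz : 0 < z.re) (hX : X < ‖z‖) : AnalyticAt ℂ g z := by
  have ho : IsOpen {z : ℂ | 0 < z.re ∧ X < ‖z‖} :=
    (isOpen_lt continuous_const Complex.continuous_re).inter (isOpen_lt continuous_const continuous_norm)
  have h1 : DifferentiableOn ℂ g {z : ℂ | 0 < z.re ∧ X < ‖z‖} := fun w hw =>
    (H.diff w hw.1 hw.2).differentiableWithinAt
  exact h1.analyticAt (ho.mem_nhds ⟨hz, hX⟩)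

/-- functions which agree far to the right agree outside of the disc -/
lemma Pr.spread (H : Pr h g w₀ X) (hA : 0 ≤ A) {f : ℂ → ℂ}
    (hf : ∀ z ∈ HA A, DifferentiableAt ℂ f z) {Y : ℝ}
    (hff : ∀ z ∈ HA A, Y < z.re → f z = g z) {z : ℂ} (hz : z ∈ HA A) (hX : X < ‖z‖) :
    f z = g z := by
  have hz0 := HA_pos hA hz
  set T : ℝ := |Y| + |A| + 1 with hT
  have hT0 : 0 ≤ T := by positivity
  have hfa : AnalyticOnNhd ℂ f (HA A) :=
    DifferentiableOn.analyticOnNhd (fun z hz => (hf z hz).differentiableWithinAt) (HA_open A)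
  have hmem : ∀ t : ℝ, 0 ≤ t → z + (t : ℂ) ∈ HA A := fun t ht => by
    change A < (z + (t : ℂ)).re
    rw [Complex.add_re, Complex.ofReal_re]
    have : A < z.re := hz
    linarith
  refine horiz_eq hT0 (fun t h0 _ => hfa _ (hmem t h0)) (fun t h0 _ => ?_) ?_
  · refine H.ganalytic (HA_pos hA (hmem t h0)) (hX.trans_le ?_)
    exact norm_add_real hz0 h0
  · have ho : IsOpen {w : ℂ | Y < w.re} := isOpen_lt continuous_const Complex.continuous_re
    have h1 : Y < (z + (T : ℂ)).re := by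
      rw [Complex.add_re, Complex.ofReal_re, hT]
      have := le_abs_self Y
      have := abs_nonneg A
      linarith
    filter_upwards [ho.mem_nhds h1, (HA_open A).mem_nhds (hmem T hT0)] with w h2 h3
    exact hff w h3 h2

/-- **Growth implies continuation.** -/
theorem Pr.ext (H : Pr h g w₀ X) (hA : 0 ≤ A)
    (hg : ∀ ε : ℝ, 0 < ε → ∃ K : ℝ, ∀ᶠ l : ℝ in atTop, ‖h l‖ ≤ K * Real.exp ((A + ε) * l)) :
    ∃ f : ℂ → ℂ, (∀ z ∈ HA A, DifferentiableAt ℂ f z) ∧ ∀ z ∈ HA A, X < ‖z‖ → f z = g z := by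
  have hb : ∀ ε : ℝ, 0 < ε → ∃ K : ℝ, ∀ l : ℝ, 0 < l → ‖h l‖ ≤ K * Real.exp ((A + ε) * l) := by
    intro ε hε
    obtain ⟨K, hK⟩ := hg ε hε
    obtain ⟨K', -, h'⟩ := H.grow (by positivity) hK
    exact ⟨K', h'⟩
  have hd : ∀ z ∈ HA A, DifferentiableAt ℂ (fun z => z * LC h z) z := fun z hz =>
    differentiableAt_id.mul (LC_diff H.meas hb hz)
  refine ⟨fun z => z * LC h z, hd, fun z hz hX => H.spread hA hd (Y := X) (fun z hz hzX => ?_) hz hX⟩
  have hz0 : z ≠ 0 := ne_zero' (HA_pos hA hz)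
  rw [H.lap z hzX]
  field_simp

/-- **Continuation implies growth.** -/
theorem Pr.up (H : Pr h g w₀ X) (hA : 0 ≤ A) {f : ℂ → ℂ}
    (hf : ∀ z ∈ HA A, DifferentiableAt ℂ f z)
    (hff : ∀ z ∈ HA A, X < ‖z‖ → f z = g z) {a : ℝ} (ha : A < a) :
    ∃ C : ℝ, 0 ≤ C ∧ ∀ l : ℝ, 0 < l → ‖h l‖ ≤ C * Real.exp (a * l) := by
  have hX1 := H.X1
  have hX0 := H.X0
  have ha0 : 0 < a := by linarith
  obtain ⟨B, hB, hBb⟩ := H.bd
  have hw := H.w0
  set p : ℝ := w₀ + 1 with hp
  have hp1 : 1 < p := by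
    rw [hp]
    linarith
  have hHa : ∀ v : ℂ, a ≤ v.re → v ∈ HA A := fun v hv => lt_of_lt_of_le ha hv
  have hv0 : ∀ v : ℂ, a ≤ v.re → v ≠ 0 := fun v hv => ne_zero' (ha0.trans_le hv)
  have hFfd : ∀ v : ℂ, a ≤ v.re → DifferentiableAt ℂ (fun z => f z / z) v := fun v hv =>
    (hf v (hHa v hv)).div differentiableAt_id (hv0 v hv)
  set K : Set ℂ := {v : ℂ | a ≤ v.re ∧ ‖v‖ ≤ X} with hK
  have hKc : IsCompact K := by
    have hcl : IsClosed K := by
      have e1 : IsClosed {v : ℂ | a ≤ v.re} := isClosed_le continuous_const Complex.continuous_re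
      have e3 : IsClosed {v : ℂ | ‖v‖ ≤ X} := isClosed_le continuous_norm continuous_const
      exact e1.inter e3
    refine (isCompact_closedBall (0 : ℂ) X).of_isClosed_subset hcl ?_
    rintro v ⟨-, h⟩
    rwa [Metric.mem_closedBall, dist_zero_right]
  obtain ⟨C₁, hC₁⟩ := hKc.exists_bound_of_continuousOn (f := fun z => f z / z)
    fun v hv => (hFfd v hv.1).continuousAt.continuousWithinAt
  set B' : ℝ := B * (1 + 1 / a) ^ p + |C₁| * (1 + X) ^ p with hB'
  have hB'0 : 0 ≤ B' := by positivity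
  have hFb : ∀ z : ℂ, a ≤ z.re → ‖f z / z‖ ≤ B' * (1 + |z.im|) ^ (-p) := by
    intro z hz
    have ht : 0 < 1 + |z.im| := by positivity
    have hna : a ≤ ‖z‖ := hz.trans (re_le_norm z)
    rcases lt_or_ge X ‖z‖ with h2 | h2
    · have e1 := hBb z (ha0.trans_le hz) h2.le
      rw [← hff z (hHa z hz) h2] at e1
      have e2 := nb ha0 (by linarith : 0 ≤ p) hna
      calc ‖f z / z‖ ≤ B * ‖z‖ ^ (-p) := e1
        _ ≤ B * ((1 + 1 / a) ^ p * (1 + |z.im|) ^ (-p)) := by gcongr
        _ = (B * (1 + 1 / a) ^ p) * (1 + |z.im|) ^ (-p) := by ring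
        _ ≤ _ := by
          refine mul_le_mul_of_nonneg_right ?_ (by positivity)
          have : 0 ≤ |C₁| * (1 + X) ^ p := by positivity
          linarith
    · have e6 : 1 ≤ (1 + X) ^ p * (1 + |z.im|) ^ (-p) := by
        have e7 : 1 + |z.im| ≤ 1 + X := by
          have := abs_im_le_norm z
          linarith
        rw [Real.rpow_neg ht.le, ← div_eq_mul_inv, le_div_iff₀ (by positivity), one_mul]
        exact Real.rpow_le_rpow ht.le e7 (by linarith)
      have e7 := (hC₁ z ⟨hz, h2⟩).trans (le_abs_self _)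
      calc ‖f z / z‖ ≤ |C₁| * 1 := by linarith
        _ ≤ |C₁| * ((1 + X) ^ p * (1 + |z.im|) ^ (-p)) := by gcongr
        _ = (|C₁| * (1 + X) ^ p) * (1 + |z.im|) ^ (-p) := by ring
        _ ≤ _ := by
          refine mul_le_mul_of_nonneg_right ?_ (by positivity)
          have : 0 ≤ B * (1 + 1 / a) ^ p := by positivity
          linarith
  set Ip : ℝ := ∫ t : ℝ, (1 + |t|) ^ (-p) with hIp
  have hIp0 : 0 ≤ Ip := integral_nonneg fun t => by positivity
  refine ⟨(2 * Real.pi)⁻¹ * (B' * Ip), by positivity, fun l hl => ?_⟩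
  set x : ℝ := max a (X + 1) with hx
  have hxX : X < x := lt_of_lt_of_le (lt_add_one _) (le_max_right _ _)
  have hax : a ≤ x := le_max_left _ _
  have hre : ∀ x t : ℝ, ((x : ℂ) + t * I).re = x := fun x t => by simp
  have him : ∀ x t : ℝ, ((x : ℂ) + t * I).im = t := fun x t => by simp
  have h1 : h l = V a (fun z => exp (z * l) * (f z / z)) := by
    rw [H.rep l x hl hxX.le]
    have e1 : V x (fun z => exp (z * l) * (g z / z)) = V x (fun z => exp (z * l) * (f z / z)) := by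
      unfold V
      congr 2
      funext t
      simp only
      rw [hff _ (hHa _ (by rw [hre]; exact hax)) (hxX.trans_le (by
        have := re_le_norm ((x : ℂ) + t * I)
        rwa [hre] at this))]
    rw [e1]
    refine (shift (p := p) (B := Real.exp (x * l) * B') hp1 hax
      (fun s hs _ => ?_) fun s hs hs2 => ?_).symm
    · exact DifferentiableAt.mul (by fun_prop) (hFfd s hs)
    · rw [norm_mul, Complex.norm_exp, Complex.re_mul_ofReal, mul_assoc]
      refine mul_le_mul (Real.exp_le_exp.2 ?_) (hFb s hs) (norm_nonneg _) (Real.exp_pos _).le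
      exact mul_le_mul_of_nonneg_right hs2 hl.le
  have h2 := norm_V_le (H := fun z => exp (z * l) * (f z / z)) (c := a)
    (g := fun t => (Real.exp (a * l) * B') * (1 + |t|) ^ (-p))
    ((decay_int hp1).const_mul _) fun t => by
      have e1 := hFb (a + t * I) (by rw [hre])
      rw [him] at e1
      rw [norm_mul, Complex.norm_exp, Complex.re_mul_ofReal, hre, mul_assoc]
      exact mul_le_mul_of_nonneg_left e1 (Real.exp_pos _).le
  rw [← h1, integral_const_mul] at h2
  refine h2.trans (le_of_eq ?_)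
  rw [hIp]
  ring

end Pool.Agent.E8helper66.ML
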