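import Pool.Agent.E8helper66.ML.Crit

/-!
# The criterion in the plane
-/

set_option autoImplicit false

open MeasureTheory Filter Topology Set Complex Asymptotics
open Pool.Agent.TH942.SL
open Pool.Agent.E8helper66.BM (Kr)

namespace Pool.Agent.E8helper66.ML

/-- the region `|Im κ s| < π / 2`, `Re exp (κ (s - 1)) > θ` -/
def Reg (κ θ : ℝ) : Set ℂ := {s | |κ * s.im| < Real.pi / 2 ∧ θ < (exp (κ * (s - 1))).re}

/-- the change of variables -/
noncomputable def ez (κ : ℝ) (s : ℂ) : ℂ := exp (κ * (s - 1))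

/-- the inverse -/
noncomputable def sz (κ : ℝ) (z : ℂ) : ℂ := 1 + log z / κ

variable {κ θ ε σ₀ : ℝ}

lemma norm_ez (κ : ℝ) (s : ℂ) : ‖ez κ s‖ = Real.exp (κ * (s.re - 1)) := by
  unfold ez
  rw [Complex.norm_exp, Complex.re_ofReal_mul, Complex.sub_re, Complex.one_re]

lemma ez_HA {s : ℂ} (hs : s ∈ Reg κ θ) : ez κ s ∈ HA θ := hs.2

lemma sz_ez (hκ : 0 < κ) {s : ℂ} (hs : |κ * s.im| < Real.pi / 2) : sz κ (ez κ s) = s := by
  have hκc : (κ : ℂ) ≠ 0 := by exact_mod_cast hκ.ne'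
  have hpi := Real.pi_pos
  have h3 : ((κ : ℂ) * (s - 1)).im = κ * s.im := by simp
  have h4 := abs_lt.1 hs
  unfold sz ez
  rw [Complex.log_exp (by rw [h3]; linarith) (by rw [h3]; linarith)]
  field_simp
  ring

lemma ez_sz (hκ : 0 < κ) {z : ℂ} (hz : z ≠ 0) : ez κ (sz κ z) = z := by
  have hκc : (κ : ℂ) ≠ 0 := by exact_mod_cast hκ.ne'
  unfold sz ez
  have e1 : (κ : ℂ) * (1 + log z / κ - 1) = log z := by
    field_simp
    ring
  rw [e1, Complex.exp_log hz]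

lemma sz_im (hκ : 0 < κ) {z : ℂ} (hz : 0 < z.re) : |κ * (sz κ z).im| < Real.pi / 2 := by
  have e1 : κ * (sz κ z).im = arg z := by
    unfold sz
    rw [Complex.add_im, Complex.one_im, zero_add, Complex.div_ofReal_im, Complex.log_im]
    field_simp
  rw [e1]
  exact Complex.abs_arg_lt_pi_div_two_iff.2 (Or.inl hz)

lemma sz_Reg (hκ : 0 < κ) (hθ : 0 ≤ θ) {z : ℂ} (hz : z ∈ HA θ) : sz κ z ∈ Reg κ θ := by
  have hz0 := HA_pos hθ hz
  refine ⟨sz_im hκ hz0, ?_⟩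
  have h1 := ez_sz hκ (ne_zero' hz0)
  unfold ez at h1
  rw [h1]
  exact hz

lemma ez_inj (hκ : 0 < κ) {s t : ℂ} (hs : |κ * s.im| < Real.pi / 2) (ht : |κ * t.im| < Real.pi / 2)
    (h : ez κ s = ez κ t) : s = t := by
  rw [← sz_ez hκ hs, ← sz_ez hκ ht, h]

lemma sz_diff (hκ : 0 < κ) {z : ℂ} (hz : 0 < z.re) : DifferentiableAt ℂ (sz κ) z := by
  unfold sz
  have h1 : DifferentiableAt ℂ (fun z : ℂ => log z) z :=
    (Complex.hasDerivAt_log (slit hz)).differentiableAt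
  exact (differentiableAt_const _).add (h1.div_const _)

lemma ez_hasDeriv (κ : ℝ) (s : ℂ) : HasDerivAt (ez κ) (ez κ s * κ) s := by
  unfold ez
  have h1 : HasDerivAt (fun s : ℂ => (κ : ℂ) * (s - 1)) ((κ : ℂ) * 1) s :=
    ((hasDerivAt_id s).sub_const 1).const_mul _
  rw [mul_one] at h1
  exact h1.cexp

lemma Reg_open (κ θ : ℝ) : IsOpen (Reg κ θ) := by
  have h1 : IsOpen {s : ℂ | |κ * s.im| < Real.pi / 2} :=
    isOpen_lt (by fun_prop) continuous_const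
  have h2 : IsOpen {s : ℂ | θ < (exp (κ * (s - 1))).re} :=
    isOpen_lt continuous_const (by fun_prop)
  exact h1.inter h2

lemma Reg_mono (h : θ ≤ ε) : Reg κ ε ⊆ Reg κ θ := fun _ hs => ⟨hs.1, lt_of_le_of_lt h hs.2⟩

/-- the region is closed under translations to the right -/
lemma Reg_right (hκ : 0 < κ) (hθ : 0 ≤ θ) {s : ℂ} (hs : s ∈ Reg κ θ) {t : ℝ} (ht : 0 ≤ t) :
    s + (t : ℂ) ∈ Reg κ θ := by
  refine ⟨by simpa using hs.1, ?_⟩
  have e1 : (κ : ℂ) * (s + (t : ℂ) - 1) = κ * (s - 1) + ((κ * t : ℝ) : ℂ) := by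
    push_cast
    ring
  rw [e1, Complex.exp_add, ← Complex.ofReal_exp, mul_comm, Complex.re_ofReal_mul]
  have h1 : 1 ≤ Real.exp (κ * t) := Real.one_le_exp (by positivity)
  have h2 : θ < (exp (κ * (s - 1))).re := hs.2
  have h3 : 0 < (exp (κ * (s - 1))).re := lt_of_le_of_lt hθ h2
  nlinarith

/-- the strip -/
lemma Reg_zero (κ : ℝ) {s : ℂ} : s ∈ Reg κ 0 ↔ |κ * s.im| < Real.pi / 2 := by
  refine ⟨fun h => h.1, fun h => ⟨h, ?_⟩⟩
  rw [Complex.exp_re]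
  have h1 : ((κ : ℂ) * (s - 1)).im = κ * s.im := by simp
  rw [h1]
  have h2 := abs_lt.1 h
  exact mul_pos (Real.exp_pos _) (Real.cos_pos_of_mem_Ioo ⟨h2.1, h2.2⟩)

/-- the sum over the zeros in the plane -/
noncomputable def hR (κ : ℝ) (Z : Multiset ℂ) (l : ℝ) : ℂ :=
  (Z.map fun ρ => Ein (exp (κ * (ρ - 1)) * l)).sum

lemma hR_eq (κ : ℝ) (Z : Multiset ℂ) (l : ℝ) : hR κ Z l = hZ (Z.map (ez κ)) l := by
  unfold hR hZ
  rw [Multiset.map_map]
  rfl

/-- the data -/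
structure LD (L : ℂ → ℂ) (σ₀ κ : ℝ) (h : ℝ → ℂ) : Prop where
  κ0 : 0 < κ
  an : ∀ s : ℂ, σ₀ < s.re → AnalyticAt ℂ L s
  ex : ∃ (g : ℂ → ℂ) (w₀ X : ℝ), Pr h g w₀ X ∧ Real.exp (κ * (σ₀ - 1)) ≤ X ∧
    ∀ s : ℂ, |κ * s.im| < Real.pi / 2 → X < ‖ez κ s‖ → L s = exp (g (ez κ s))

variable {L : ℂ → ℂ} {h : ℝ → ℂ}

/-- analytic continuation to a set -/
def Cont (L : ℂ → ℂ) (σ₀ : ℝ) (S : Set ℂ) (F : ℂ → ℂ) : Prop :=
  DifferentiableOn ℂ F S ∧ ∀ s ∈ S, σ₀ < s.re → F s = L s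

/-- growth -/
def Grow (h : ℝ → ℂ) (κ ε : ℝ) (Z : Multiset ℂ) : Prop :=
  (fun l : ℝ => h l + hR κ Z l) =O[atTop] fun l => Real.exp (ε * l)

lemma Grow.ev {Z : Multiset ℂ} (H : Grow h κ ε Z) : ∃ K : ℝ, ∀ᶠ l : ℝ in atTop,
    ‖h l + hZ (Z.map (ez κ)) l‖ ≤ K * Real.exp (ε * l) := by
  obtain ⟨K, hK⟩ := H.bound
  refine ⟨K, ?_⟩
  filter_upwards [hK] with l h1
  rw [← hR_eq]
  rwa [Real.norm_of_nonneg (Real.exp_pos _).le] at h1

lemma grow_of {Z : Multiset ℂ} {C : ℝ}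
    (H : ∀ l : ℝ, 0 < l → ‖h l + hZ (Z.map (ez κ)) l‖ ≤ C * Real.exp (ε * l)) : Grow h κ ε Z := by
  refine IsBigO.of_bound C ?_
  filter_upwards [eventually_gt_atTop 0] with l hl
  rw [hR_eq, Real.norm_of_nonneg (Real.exp_pos _).le]
  exact H l hl

/-- the continuation in the variable `z` -/
lemma Cont.pull {F : ℂ → ℂ} (hF : Cont L σ₀ (Reg κ θ) F) (hκ : 0 < κ) (hθ : 0 ≤ θ) {g : ℂ → ℂ}
    {X : ℝ} (hX : Real.exp (κ * (σ₀ - 1)) ≤ X)
    (hL : ∀ s : ℂ, |κ * s.im| < Real.pi / 2 → X < ‖ez κ s‖ → L s = exp (g (ez κ s))) :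
    (∀ z ∈ HA θ, DifferentiableAt ℂ (fun z => F (sz κ z)) z) ∧
      ∀ z ∈ HA θ, X < ‖z‖ → F (sz κ z) = exp (g z) := by
  refine ⟨fun z hz => ?_, fun z hz hzX => ?_⟩
  · have h1 := hF.1.differentiableAt ((Reg_open κ θ).mem_nhds (sz_Reg hκ hθ hz))
    exact DifferentiableAt.comp (f := sz κ) z h1 (sz_diff hκ (HA_pos hθ hz))
  · have hz0 := HA_pos hθ hz
    have h1 := sz_Reg hκ hθ hz
    have h2 : ez κ (sz κ z) = z := ez_sz hκ (ne_zero' hz0)
    have h3 : σ₀ < (sz κ z).re := by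
      have h4 : Real.exp (κ * (σ₀ - 1)) < ‖ez κ (sz κ z)‖ := by
        rw [h2]
        exact hX.trans_lt hzX
      rw [norm_ez, Real.exp_lt_exp] at h4
      have := lt_of_mul_lt_mul_left h4 hκ.le
      linarith
    rw [hF.2 _ h1 h3, hL _ h1.1 (by rw [h2]; exact hzX), h2]

/-- the continuation in the variable `s` -/
lemma push (D : LD L σ₀ κ h) (hθ : 0 ≤ θ) {g : ℂ → ℂ} {X : ℝ}
    (hL : ∀ s : ℂ, |κ * s.im| < Real.pi / 2 → X < ‖ez κ s‖ → L s = exp (g (ez κ s)))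
    {G : ℂ → ℂ} (hG : ∀ z ∈ HA θ, DifferentiableAt ℂ G z)
    (hGX : ∀ z ∈ HA θ, X < ‖z‖ → G z = exp (g z)) : Cont L σ₀ (Reg κ θ) (fun s => G (ez κ s)) := by
  have hκ := D.κ0
  have hd : ∀ s ∈ Reg κ θ, DifferentiableAt ℂ (fun s => G (ez κ s)) s := fun s hs =>
    DifferentiableAt.comp (f := ez κ) s (hG _ (ez_HA hs)) (ez_hasDeriv κ s).differentiableAt
  refine ⟨fun s hs => (hd s hs).differentiableWithinAt, fun s hs hσ => ?_⟩
  have hda : DifferentiableOn ℂ (fun s => G (ez κ s)) (Reg κ θ) := fun s hs =>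
    (hd s hs).differentiableWithinAt
  -- a point far to the right
  obtain ⟨T, hT0, hT⟩ : ∃ T : ℝ, 0 ≤ T ∧ X < ‖ez κ (s + (T : ℂ))‖ := by
    have h1 : Tendsto (fun T : ℝ => Real.exp (κ * (s.re + T - 1))) atTop atTop := by
      refine Real.tendsto_exp_atTop.comp ?_
      refine Tendsto.const_mul_atTop hκ ?_
      have : (fun T : ℝ => s.re + T - 1) = fun T : ℝ => (s.re - 1) + T := by
        funext T
        ring
      rw [this]
      exact tendsto_atTop_add_const_left _ _ tendsto_id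
    obtain ⟨T, h2, h3⟩ := ((h1.eventually (eventually_gt_atTop X)).and
      (eventually_ge_atTop 0)).exists
    refine ⟨T, h3, ?_⟩
    rw [norm_ez, Complex.add_re, Complex.ofReal_re]
    exact h2
  refine horiz_eq (f := fun s => G (ez κ s)) (g := L) hT0 (fun t h0 _ => ?_) (fun t h0 _ => ?_) ?_
  · exact hda.analyticAt ((Reg_open κ θ).mem_nhds (Reg_right hκ hθ hs h0))
  · refine D.an _ ?_
    rw [Complex.add_re, Complex.ofReal_re]
    linarith
  · have ho : IsOpen {w : ℂ | X < ‖ez κ w‖} := by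
      refine isOpen_lt continuous_const (Continuous.norm ?_)
      unfold ez
      fun_prop
    filter_upwards [ho.mem_nhds hT, (Reg_open κ θ).mem_nhds (Reg_right hκ hθ hs hT0)] with w h1 h2
    rw [hGX _ (ez_HA h2) h1, hL w h2.1 h1]

/-- **The criterion in a region.** -/
theorem region (D : LD L σ₀ κ h) (hθ : 0 ≤ θ) :
    (∃ F : ℂ → ℂ, Cont L σ₀ (Reg κ θ) F) ↔
      ∀ ε : ℝ, θ < ε → ∃ Z : Multiset ℂ, (∀ ρ ∈ Z, ρ ∈ Reg κ θ) ∧ Grow h κ ε Z := by
  obtain ⟨g, w₀, X, H, hX, hL⟩ := D.ex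
  have hκ := D.κ0
  constructor
  · rintro ⟨F, hF⟩ ε hε
    obtain ⟨h1, h2⟩ := hF.pull hκ hθ hX hL
    obtain ⟨Z, hZ1, C, hC, hCb⟩ := H.fwd hθ hε h1 h2
    have h3 : (Z.map (sz κ)).map (ez κ) = Z := by
      rw [Multiset.map_map]
      conv_rhs => rw [← Multiset.map_id Z]
      refine Multiset.map_congr rfl fun a ha => ?_
      exact ez_sz hκ (ne_zero' (HA_pos hθ (hZ1 a ha).1))
    refine ⟨Z.map (sz κ), fun ρ hρ => ?_, grow_of (C := C) (by rw [h3]; exact hCb)⟩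
    obtain ⟨a, ha, rfl⟩ := Multiset.mem_map.1 hρ
    exact sz_Reg hκ hθ (hZ1 a ha).1
  · intro hgr
    obtain ⟨G, hG, hGX⟩ := glue (θ := θ) (X := X) (E := fun z => exp (g z)) (fun ε hε => by
      obtain ⟨Z, -, hZg⟩ := hgr ε hε
      obtain ⟨K, hK⟩ := hZg.ev
      have hε0 : 0 ≤ ε := hθ.trans hε.le
      obtain ⟨f, hf, hff⟩ := H.bwd hε0 hK
      exact ⟨fun z => pZ (Z.map (ez κ)) z * exp (f z), fun z hz =>
        (pZ_diff _ (ne_zero' (HA_pos hε0 hz))).mul (hf z hz).cexp, hff⟩)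
    exact ⟨_, push D hθ hL hG hGX⟩

/-- **The zeros.** -/
theorem region_order (D : LD L σ₀ κ h) (hθ : 0 ≤ θ) (hε : θ ≤ ε) {F : ℂ → ℂ}
    (hF : Cont L σ₀ (Reg κ θ) F) {Z : Multiset ℂ} (hZ : ∀ ρ ∈ Z, ρ ∈ Reg κ θ) (hg : Grow h κ ε Z)
    {s : ℂ} (hs : s ∈ Reg κ ε) : analyticOrderAt F s = (Z.count s : ℕ∞) := by
  classical
  obtain ⟨g, w₀, X, H, hX, hL⟩ := D.ex
  have hκ := D.κ0
  have hε0 : 0 ≤ ε := hθ.trans hε
  obtain ⟨K, hK⟩ := hg.ev
  have hF' : Cont L σ₀ (Reg κ ε) F :=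
    ⟨hF.1.mono (Reg_mono hε), fun s hs hσ => hF.2 s (Reg_mono hε hs) hσ⟩
  obtain ⟨h1, h2⟩ := hF'.pull hκ hε0 hX hL
  have h3 := H.order hε0 hK h1 h2 (ez_HA hs)
  have h4 : analyticOrderAt F s = analyticOrderAt (fun z => F (sz κ z)) (ez κ s) := by
    have h5 : F =ᶠ[𝓝 s] (fun z => F (sz κ z)) ∘ ez κ := by
      filter_upwards [(Reg_open κ ε).mem_nhds hs] with w hw
      simp only [Function.comp_apply]
      rw [sz_ez hκ hw.1]
    rw [analyticOrderAt_congr h5]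
    have h6 : AnalyticAt ℂ (ez κ) s := by
      unfold ez
      fun_prop
    refine analyticOrderAt_comp_of_deriv_ne_zero h6 ?_
    rw [(ez_hasDeriv κ s).deriv]
    refine mul_ne_zero (Complex.exp_ne_zero _) ?_
    exact_mod_cast hκ.ne'
  rw [h4, h3]
  congr 1
  by_cases hsZ : s ∈ Z
  · refine Multiset.count_map_eq_count _ _ (fun a ha b hb hab => ?_) s hsZ
    exact ez_inj hκ (hZ a ha).1 (hZ b hb).1 hab
  · rw [Multiset.count_eq_zero_of_notMem hsZ, Multiset.count_eq_zero_of_notMem]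
    intro h5
    obtain ⟨a, ha, hae⟩ := Multiset.mem_map.1 h5
    apply hsZ
    rw [← ez_inj hκ (hZ a ha).1 hs.1 hae]
    exact ha

/-- **Without zeros.** -/
theorem region_free (D : LD L σ₀ κ h) (hθ : 0 ≤ θ) :
    (∃ F : ℂ → ℂ, Cont L σ₀ (Reg κ θ) F ∧ ∀ s ∈ Reg κ θ, F s ≠ 0) ↔
      ∀ ε : ℝ, θ < ε → h =O[atTop] fun l => Real.exp (ε * l) := by
  obtain ⟨g, w₀, X, H, hX, hL⟩ := D.ex
  have hκ := D.κ0
  have hsimp : ∀ ε : ℝ, (h =O[atTop] fun l => Real.exp (ε * l)) ↔ Grow h κ ε 0 := by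
    intro ε
    unfold Grow hR
    simp
  constructor
  · rintro ⟨F, hF, hne⟩ ε hε
    obtain ⟨h1, h2⟩ := hF.pull hκ hθ hX hL
    obtain ⟨C, hC, hCb⟩ := H.free hθ h1 (fun z hz => hne _ (sz_Reg hκ hθ hz)) h2 hε
    rw [hsimp]
    exact grow_of (C := C) (by simpa [hZ] using hCb)
  · intro hgr
    obtain ⟨F, hF⟩ := (region D hθ).2 fun ε hε => ⟨0, by simp, (hsimp ε).1 (hgr ε hε)⟩
    refine ⟨F, hF, fun s hs h0 => ?_⟩
    -- a level between
    set ε : ℝ := (θ + (exp (κ * (s - 1))).re) / 2 with hε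
    have h2 : θ < (exp (κ * (s - 1))).re := hs.2
    have h3 : θ < ε := by
      rw [hε]
      linarith
    have hsε : s ∈ Reg κ ε := ⟨hs.1, by
      change ε < (exp (κ * (s - 1))).re
      rw [hε]
      linarith⟩
    have h4 := region_order D hθ h3.le hF (Z := 0) (by simp) ((hsimp ε).1 (hgr ε h3)) hsε
    have h5 : AnalyticAt ℂ F s := hF.1.analyticAt ((Reg_open κ θ).mem_nhds hs)
    rw [Multiset.count_zero, Nat.cast_zero, h5.analyticOrderAt_eq_zero] at h4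
    exact h4 h0

/-- convexity of the strip -/
lemma strip_convex (κ : ℝ) : Convex ℝ (Reg κ 0) := by
  have h1 : Reg κ 0 = {s : ℂ | |κ * s.im| < Real.pi / 2} := by
    ext s
    exact Reg_zero κ
  rw [h1]
  intro x hx y hy a b ha hb hab
  simp only [mem_setOf_eq] at hx hy ⊢
  have e1 : (a • x + b • y).im = a * x.im + b * y.im := by simp
  rw [e1]
  have h2 := abs_lt.1 hx
  have h3 := abs_lt.1 hy
  have e2 : κ * (a * x.im + b * y.im) = a * (κ * x.im) + b * (κ * y.im) := by ring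
  rw [e2, abs_lt]
  rcases ha.eq_or_lt with h | h
  · have hb1 : b = 1 := by linarith
    rw [← h, hb1]
    constructor <;> linarith
  · constructor
    · have := mul_lt_mul_of_pos_left h2.1 h
      have := mul_le_mul_of_nonneg_left h3.1.le hb
      have e3 : a * -(Real.pi / 2) + b * -(Real.pi / 2) = -(Real.pi / 2) := by
        rw [← add_mul, hab, one_mul]
      linarith
    · have := mul_lt_mul_of_pos_left h2.2 h
      have := mul_le_mul_of_nonneg_left h3.2.le hb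
      have e3 : a * (Real.pi / 2) + b * (Real.pi / 2) = Real.pi / 2 := by
        rw [← add_mul, hab, one_mul]
      linarith

/-- **The criterion for an entire continuation.** -/
theorem entire {h : ℝ → ℝ → ℂ} (D : ∀ κ : ℝ, 0 < κ → LD L σ₀ κ (h κ)) :
    (∃ F : ℂ → ℂ, Differentiable ℂ F ∧ ∀ s : ℂ, σ₀ < s.re → F s = L s) ↔
      ∀ κ : ℝ, 0 < κ → ∀ ε : ℝ, 0 < ε → ∃ Z : Multiset ℂ, (∀ ρ ∈ Z, ρ ∈ Reg κ 0) ∧
        Grow (h κ) κ ε Z := by
  constructor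
  · rintro ⟨F, hF, hFL⟩ κ hκ
    exact (region (D κ hκ) le_rfl).1 ⟨F, hF.differentiableOn, fun s _ hs => hFL s hs⟩
  · intro hgr
    have hex : ∀ n : ℕ, ∃ F : ℂ → ℂ, Cont L σ₀ (Reg (1 / ((n : ℝ) + 1)) 0) F := fun n =>
      (region (D _ (by positivity)) le_rfl).2 (hgr _ (by positivity))
    choose F hF using hex
    have hmem : ∀ (n : ℕ) (s : ℂ), |s.im| ≤ n → s ∈ Reg (1 / ((n : ℝ) + 1)) 0 := by
      intro n s hs
      rw [Reg_zero, abs_mul, abs_of_pos (by positivity)]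
      have h1 : 1 / ((n : ℝ) + 1) * |s.im| ≤ 1 := by
        rw [one_div, inv_mul_le_iff₀ (by positivity)]
        linarith
      have := Real.pi_gt_three
      linarith
    have hsub : ∀ n m : ℕ, n ≤ m → Reg (1 / ((n : ℝ) + 1)) 0 ⊆ Reg (1 / ((m : ℝ) + 1)) 0 := by
      intro n m hnm s hs
      rw [Reg_zero] at hs ⊢
      rw [abs_mul, abs_of_pos (by positivity)] at hs ⊢
      refine lt_of_le_of_lt (mul_le_mul_of_nonneg_right ?_ (abs_nonneg _)) hs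
      have : (n : ℝ) ≤ m := by exact_mod_cast hnm
      exact one_div_le_one_div_of_le (by positivity) (by linarith)
    have key : ∀ n m : ℕ, n ≤ m → ∀ s ∈ Reg (1 / ((n : ℝ) + 1)) 0, F n s = F m s := by
      intro n m hnm s hs
      have a1 : AnalyticOnNhd ℂ (F n) (Reg (1 / ((n : ℝ) + 1)) 0) :=
        (hF n).1.analyticOnNhd (Reg_open _ _)
      have a2 : AnalyticOnNhd ℂ (F m) (Reg (1 / ((n : ℝ) + 1)) 0) :=
        ((hF m).1.mono (hsub n m hnm)).analyticOnNhd (Reg_open _ _)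
      set p : ℂ := ((|σ₀| + 1 : ℝ) : ℂ) with hp
      have hpσ : σ₀ < p.re := by
        rw [hp, Complex.ofReal_re]
        have := le_abs_self σ₀
        linarith
      have hpR : p ∈ Reg (1 / ((n : ℝ) + 1)) 0 := hmem n p (by rw [hp, Complex.ofReal_im]; simp)
      refine a1.eqOn_of_preconnected_of_eventuallyEq a2 (strip_convex _).isPreconnected hpR ?_ hs
      have ho : IsOpen {w : ℂ | σ₀ < w.re} := isOpen_lt continuous_const Complex.continuous_re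
      filter_upwards [ho.mem_nhds hpσ, (Reg_open _ _).mem_nhds hpR] with w h1 h2
      rw [(hF n).2 w h2 h1, (hF m).2 w (hsub n m hnm h2) h1]
    have hc : ∀ s : ℂ, |s.im| ≤ (⌈|s.im|⌉₊ : ℕ) := fun s => Nat.le_ceil _
    refine ⟨fun s => F ⌈|s.im|⌉₊ s, fun s => ?_, fun s hs => ?_⟩
    · set N : ℕ := ⌈|s.im| + 1⌉₊ with hN
      have hNs : |s.im| + 1 ≤ N := Nat.le_ceil _
      have ho : IsOpen {w : ℂ | |w.im| < |s.im| + 1} := isOpen_lt (by fun_prop) continuous_const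
      have h1 : DifferentiableAt ℂ (F N) s :=
        (hF N).1.differentiableAt ((Reg_open _ _).mem_nhds (hmem N s (by linarith)))
      refine h1.congr_of_eventuallyEq ?_
      filter_upwards [ho.mem_nhds (show |s.im| < |s.im| + 1 by linarith)] with w hw
      have hw' : |w.im| < |s.im| + 1 := hw
      exact key _ N (Nat.ceil_le_ceil hw'.le) w (hmem _ w (hc w))
    · exact (hF _).2 s (hmem _ s (hc s)) hs

end Pool.Agent.E8helper66.ML
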