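import Pool.Agent.E8helper66.BM.Ker

/-!
# Sums of the kernels `l ^ v / Γ (1 + v)` and generalised power series
-/

set_option autoImplicit false

open MeasureTheory Filter Topology Set Complex
open Pool.Agent.TH942.SL
open Pool.Agent.W263.BSD (LInt lap lapC lapC_ofReal lapC_differentiableAt)
open Pool.Agent.E8helper66.BM (Kr ek Kr_nonneg Kr_cont norm_ek ek_diff rpow_lint lap_rpow_real lap_rpow
  ek_line_bound ek_int ker_inv)

namespace Pool.Agent.E8helper66.ML

/-- the Laplace transform of a complex function -/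
noncomputable def LC (h : ℝ → ℂ) (z : ℂ) : ℂ := ∫ l in Ioi (0 : ℝ), h l * exp (-(z * l))

/-- pairs: a function of `l` and its transform (times `z`) -/
structure Pr (h : ℝ → ℂ) (g : ℂ → ℂ) (w₀ X : ℝ) : Prop where
  w0 : 0 < w₀
  X1 : 1 ≤ X
  meas : AEStronglyMeasurable h (volume.restrict (Ioi 0))
  cont : ∀ z : ℂ, 0 < z.re → X ≤ ‖z‖ → ContinuousWithinAt g {z | 0 < z.re ∧ X ≤ ‖z‖} z
  diff : ∀ z : ℂ, 0 < z.re → X < ‖z‖ → DifferentiableAt ℂ g z
  bd : ∃ B : ℝ, 0 ≤ B ∧ ∀ z : ℂ, 0 < z.re → X ≤ ‖z‖ → ‖g z / z‖ ≤ B * ‖z‖ ^ (-(w₀ + 1))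
  rep : ∀ l x : ℝ, 0 < l → X ≤ x → h l = V x (fun z => exp (z * l) * (g z / z))
  lap : ∀ z : ℂ, X < z.re → LC h z = g z / z

section
variable {ι : Type*} [Countable ι] {w : ι → ℝ} {C : ι → ℂ} {w₀ X : ℝ}

/-- exponents and coefficients -/
structure Ser (w : ι → ℝ) (C : ι → ℂ) (w₀ X : ℝ) : Prop where
  w0 : 0 < w₀
  X1 : 1 ≤ X
  ge : ∀ i, w₀ ≤ w i
  sum : Summable fun i => ‖C i‖ * X ^ (-(w i))

/-- the sum of the kernels -/
noncomputable def WL (w : ι → ℝ) (C : ι → ℂ) (l : ℝ) : ℂ := ∑' i, C i * (Kr l (w i) : ℂ)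

/-- the generalised power series -/
noncomputable def gs (w : ι → ℝ) (C : ι → ℂ) (z : ℂ) : ℂ := ∑' i, C i * exp (-(w i * log z))

omit [Countable ι] in
lemma Ser.X0 (H : Ser w C w₀ X) : 0 < X := by linarith [H.X1]

omit [Countable ι] in
lemma Ser.term (H : Ser w C w₀ X) {z : ℂ} (hz : X ≤ ‖z‖) (i : ι) :
    ‖C i * ek (w i) z‖ ≤ (‖C i‖ * X ^ (-(w i))) * X ^ w₀ * ‖z‖ ^ (-(w₀ + 1)) := by
  have hX := H.X0
  have hn : 0 < ‖z‖ := hX.trans_le hz
  rw [norm_mul, norm_ek _ (norm_pos_iff.1 hn)]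
  have h1 : ‖z‖ ^ (-(w i) - 1) = ‖z‖ ^ (-(w i - w₀)) * ‖z‖ ^ (-(w₀ + 1)) := by
    rw [← Real.rpow_add hn]
    congr 1
    ring
  have h2 : ‖z‖ ^ (-(w i - w₀)) ≤ X ^ (-(w i - w₀)) :=
    Real.rpow_le_rpow_of_nonpos hX hz (by linarith [H.ge i])
  have h3 : X ^ (-(w i - w₀)) = X ^ (-(w i)) * X ^ w₀ := by
    rw [← Real.rpow_add hX]
    congr 1
    ring
  rw [h1]
  calc ‖C i‖ * (‖z‖ ^ (-(w i - w₀)) * ‖z‖ ^ (-(w₀ + 1))) ≤
        ‖C i‖ * ((X ^ (-(w i)) * X ^ w₀) * ‖z‖ ^ (-(w₀ + 1))) := by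
        rw [← h3]
        gcongr
    _ = _ := by ring

omit [Countable ι] in
lemma Ser.summable (H : Ser w C w₀ X) {z : ℂ} (hz : X ≤ ‖z‖) :
    Summable fun i => C i * ek (w i) z :=
  Summable.of_norm_bounded ((H.sum.mul_right (X ^ w₀)).mul_right (‖z‖ ^ (-(w₀ + 1))))
    (H.term hz)

omit [Countable ι] in
lemma gs_div (z : ℂ) : gs w C z / z = ∑' i, C i * ek (w i) z := by
  unfold gs ek
  rw [← tsum_div_const]
  refine tsum_congr fun i => ?_
  ring

omit [Countable ι] in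
lemma Ser.gbd (H : Ser w C w₀ X) : ∃ B : ℝ, 0 ≤ B ∧ ∀ z : ℂ, X ≤ ‖z‖ →
    ‖gs w C z / z‖ ≤ B * ‖z‖ ^ (-(w₀ + 1)) := by
  have hX := H.X0
  refine ⟨(∑' i, ‖C i‖ * X ^ (-(w i))) * X ^ w₀, ?_, fun z hz => ?_⟩
  · have : 0 ≤ ∑' i, ‖C i‖ * X ^ (-(w i)) := tsum_nonneg fun i => by positivity
    positivity
  · rw [gs_div]
    have h1 := tsum_of_norm_bounded
      (((H.sum.hasSum.mul_right (X ^ w₀)).mul_right (‖z‖ ^ (-(w₀ + 1))))) (H.term hz)
    exact h1

omit [Countable ι] in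
/-- continuity -/
lemma Ser.gcont (H : Ser w C w₀ X) : ContinuousOn (gs w C) {z | 0 < z.re ∧ X ≤ ‖z‖} := by
  have hX := H.X0
  unfold gs
  refine continuousOn_tsum (u := fun i => ‖C i‖ * X ^ (-(w i))) (fun i => ?_) H.sum fun i z hz => ?_
  · refine continuousOn_const.mul (ContinuousOn.cexp (ContinuousOn.neg
      (continuousOn_const.mul fun z hz => ?_)))
    exact (Complex.hasDerivAt_log (slit hz.1)).continuousAt.continuousWithinAt
  · have hn : 0 < ‖z‖ := hX.trans_le hz.2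
    rw [norm_mul, Complex.norm_exp]
    refine mul_le_mul_of_nonneg_left ?_ (norm_nonneg _)
    have h1 : (-(w i * log z)).re = -(w i * Real.log ‖z‖) := by
      rw [Complex.neg_re, Complex.re_ofReal_mul, Complex.log_re]
    rw [h1, Real.rpow_def_of_pos hX, Real.exp_le_exp]
    have h2 : Real.log X ≤ Real.log ‖z‖ := Real.log_le_log hX hz.2
    have h3 : 0 < w i := H.w0.trans_le (H.ge i)
    nlinarith

omit [Countable ι] in
/-- differentiability -/
lemma Ser.gdiff (H : Ser w C w₀ X) {z : ℂ} (hz : 0 < z.re) (hX' : X < ‖z‖) :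
    DifferentiableAt ℂ (gs w C) z := by
  have hX := H.X0
  have ho : IsOpen {z : ℂ | 0 < z.re ∧ X < ‖z‖} :=
    (isOpen_lt continuous_const Complex.continuous_re).inter (isOpen_lt continuous_const continuous_norm)
  have h1 : DifferentiableOn ℂ (gs w C) {z : ℂ | 0 < z.re ∧ X < ‖z‖} := by
    unfold gs
    refine differentiableOn_tsum_of_summable_norm (u := fun i => ‖C i‖ * X ^ (-(w i))) H.sum
      (fun i z hz => ?_) ho fun i z hz => ?_
    · have h2 : DifferentiableAt ℂ (fun z : ℂ => log z) z :=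
        (Complex.hasDerivAt_log (slit hz.1)).differentiableAt
      exact ((h2.const_mul _).neg.cexp.const_mul _).differentiableWithinAt
    · have hn : 0 < ‖z‖ := hX.trans hz.2
      rw [norm_mul, Complex.norm_exp]
      refine mul_le_mul_of_nonneg_left ?_ (norm_nonneg _)
      have h1 : (-(w i * log z)).re = -(w i * Real.log ‖z‖) := by
        rw [Complex.neg_re, Complex.re_ofReal_mul, Complex.log_re]
      rw [h1, Real.rpow_def_of_pos hX, Real.exp_le_exp]
      have h2 : Real.log X ≤ Real.log ‖z‖ := Real.log_le_log hX hz.2.le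
      have h3 : 0 < w i := H.w0.trans_le (H.ge i)
      nlinarith
  exact h1.differentiableAt (ho.mem_nhds ⟨hz, hX'⟩)

lemma Ser.hasSum_V (H : Ser w C w₀ X) {l x : ℝ} (hl : 0 < l) (hx : X ≤ x) :
    HasSum (fun i => C i * (Kr l (w i) : ℂ)) (V x (fun z => exp (z * l) * (gs w C z / z))) := by
  have hX := H.X0
  have hx0 : 0 < x := hX.trans_le hx
  have hre : ∀ t : ℝ, ((x : ℂ) + t * I).re = x := fun t => by simp
  have him : ∀ t : ℝ, ((x : ℂ) + t * I).im = t := fun t => by simp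
  have hn : ∀ t : ℝ, x ≤ ‖(x : ℂ) + t * I‖ := fun t => by
    have := re_le_norm ((x : ℂ) + t * I)
    rwa [hre] at this
  have hw1 : 1 < w₀ + 1 := by linarith [H.w0]
  set F : ι → ℝ → ℂ := fun i t => exp (((x : ℂ) + t * I) * l) * (C i * ek (w i) ((x : ℂ) + t * I))
    with hF
  set A : ℝ → ℝ := fun t => Real.exp (x * l) * X ^ w₀ *
    ((1 + 1 / x) ^ (w₀ + 1) * (1 + |t|) ^ (-(w₀ + 1))) with hA
  have hAi : Integrable A := ((decay_int hw1).const_mul _).const_mul _
  have hle : ∀ i t, ‖F i t‖ ≤ (‖C i‖ * X ^ (-(w i))) * A t := by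
    intro i t
    have h1 := H.term (hx.trans (hn t)) i
    have h2 := nb hx0 (by linarith : 0 ≤ w₀ + 1) (hn t)
    rw [him] at h2
    have h3 : ‖exp (((x : ℂ) + t * I) * l)‖ = Real.exp (x * l) := by
      rw [Complex.norm_exp, Complex.re_mul_ofReal, hre]
    rw [hF]
    simp only
    rw [norm_mul, h3]
    calc Real.exp (x * l) * ‖C i * ek (w i) ((x : ℂ) + t * I)‖ ≤
          Real.exp (x * l) * ((‖C i‖ * X ^ (-(w i))) * X ^ w₀ *
            ((1 + 1 / x) ^ (w₀ + 1) * (1 + |t|) ^ (-(w₀ + 1)))) := by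
          refine mul_le_mul_of_nonneg_left (h1.trans ?_) (Real.exp_pos _).le
          exact mul_le_mul_of_nonneg_left h2 (by positivity)
      _ = _ := by rw [hA]; ring
  have hFc : ∀ i, Continuous (F i) := by
    intro i
    have h1 := line_cont (H := fun z => exp (z * l) * (C i * ek (w i) z)) (a := x) (fun s hs => by
      have hs0 : 0 < s.re := by rw [hs]; exact hx0
      exact ((by fun_prop : DifferentiableAt ℂ (fun z : ℂ => exp (z * l)) s).mul
        ((ek_diff (w i) hs0).const_mul _)).continuousAt)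
    exact h1
  have hFi : ∀ i, Integrable (F i) := fun i =>
    (hAi.const_mul (‖C i‖ * X ^ (-(w i)))).mono' (hFc i).aestronglyMeasurable
      (ae_of_all _ (hle i))
  have hFs : Summable fun i => ∫ t, ‖F i t‖ := by
    refine Summable.of_nonneg_of_le (fun i => integral_nonneg fun t => norm_nonneg _) (fun i => ?_)
      (H.sum.mul_right (∫ t, A t))
    calc ∫ t, ‖F i t‖ ≤ ∫ t, (‖C i‖ * X ^ (-(w i))) * A t :=
          integral_mono (hFi i).norm (hAi.const_mul _) (hle i)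
      _ = _ := by rw [integral_const_mul]
  have h1 := hasSum_integral_of_summable_integral_norm hFi hFs
  have h2 : ∀ i, ∫ t, F i t = ((2 * Real.pi : ℝ) : ℂ) * (C i * (Kr l (w i) : ℂ)) := by
    intro i
    have e1 := ker_inv (v := w i) (H.w0.trans_le (H.ge i)) hl hx0
    unfold V at e1
    have e2 : ∀ t : ℝ, F i t = C i * (exp (((x : ℂ) + t * I) * l) * ek (w i) ((x : ℂ) + t * I)) :=
      fun t => by rw [hF]; ring
    simp only [e2]
    rw [integral_const_mul]
    have e4 : (∫ t : ℝ, exp (((x : ℂ) + t * I) * l) * ek (w i) ((x : ℂ) + t * I)) =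
        ((2 * Real.pi : ℝ) : ℂ) * (Kr l (w i) : ℂ) := by
      rw [← e1, ← mul_assoc, ← Complex.ofReal_mul, mul_inv_cancel₀ (by positivity),
        Complex.ofReal_one, one_mul]
    rw [e4]
    ring
  simp only [h2] at h1
  have h3 := h1.mul_left (((2 * Real.pi)⁻¹ : ℝ) : ℂ)
  have e5 : (((2 * Real.pi)⁻¹ : ℝ) : ℂ) * ((2 * Real.pi : ℝ) : ℂ) = 1 := by
    rw [← Complex.ofReal_mul, inv_mul_cancel₀ (by positivity), Complex.ofReal_one]
  have e6 : ∀ i, (((2 * Real.pi)⁻¹ : ℝ) : ℂ) * (((2 * Real.pi : ℝ) : ℂ) *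
      (C i * (Kr l (w i) : ℂ))) = C i * (Kr l (w i) : ℂ) := fun i => by
    rw [← mul_assoc, e5, one_mul]
  simp only [e6] at h3
  have e7 : V x (fun z => exp (z * l) * (gs w C z / z)) =
      (((2 * Real.pi)⁻¹ : ℝ) : ℂ) * ∫ t : ℝ, ∑' i, F i t := by
    unfold V
    congr 2
    funext t
    simp only [hF]
    rw [gs_div, tsum_mul_left]
  rw [e7]
  exact h3

/-- **The sums of the kernels as line integrals.** -/
theorem Ser.rep (H : Ser w C w₀ X) {l x : ℝ} (hl : 0 < l) (hx : X ≤ x) :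
    WL w C l = V x (fun z => exp (z * l) * (gs w C z / z)) := (H.hasSum_V hl hx).tsum_eq

lemma Ser.summable_kr (H : Ser w C w₀ X) {l : ℝ} (hl : 0 < l) :
    Summable fun i => C i * (Kr l (w i) : ℂ) := (H.hasSum_V hl le_rfl).summable

lemma kr_meas (v : ℝ) : Measurable fun l : ℝ => (Kr l v : ℂ) := by
  unfold Kr
  fun_prop

lemma Ser.meas (H : Ser w C w₀ X) :
    AEStronglyMeasurable (WL w C) (volume.restrict (Ioi 0)) := by
  refine aestronglyMeasurable_of_tendsto_ae (u := (atTop : Filter (Finset ι)))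
    (f := fun s l => ∑ i ∈ s, C i * (Kr l (w i) : ℂ)) (fun s => ?_) ?_
  · refine Measurable.aestronglyMeasurable ?_
    exact Finset.measurable_fun_sum s fun i _ => (kr_meas (w i)).const_mul (C i)
  · filter_upwards [ae_restrict_mem measurableSet_Ioi] with l hl
    exact (H.summable_kr hl).hasSum

/-- the Laplace transform -/
theorem Ser.laplace (H : Ser w C w₀ X) {z : ℂ} (hz : X < z.re) :
    LC (WL w C) z = gs w C z / z := by
  have hX := H.X0
  have hz0 : 0 < z.re := hX.trans hz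
  set μ : Measure ℝ := volume.restrict (Ioi (0 : ℝ)) with hμ
  set F : ι → ℝ → ℂ := fun i l => C i * (Kr l (w i) : ℂ) * exp (-(z * l)) with hF
  have hin : ∀ i, Integrable (F i) μ ∧ ∫ l, ‖F i l‖ ∂μ = ‖C i * ek (w i) (z.re : ℂ)‖ ∧
      ∫ l, F i l ∂μ = C i * ek (w i) z := by
    intro i
    have hv : 0 < w i := H.w0.trans_le (H.ge i)
    have hΓ : 0 < Real.Gamma (1 + w i) := Real.Gamma_pos_of_pos (by linarith)
    have hL := rpow_lint (v := w i) (w := z.re) (by linarith) hz0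
    have hLc := LInt.complex (measurable_id.pow_const (w i)) hL
    have hΓc : (Real.Gamma (1 + w i) : ℂ) ≠ 0 := by exact_mod_cast hΓ.ne'
    refine ⟨?_, ?_, ?_⟩
    · refine (hLc.const_mul (C i / (Real.Gamma (1 + w i) : ℂ))).congr (ae_of_all _ fun l => ?_)
      simp only [hF, id_eq, Kr]
      push_cast
      ring
    · have e1 : ∫ l, ‖F i l‖ ∂μ = ∫ l in Ioi (0 : ℝ), (‖C i‖ / Real.Gamma (1 + w i)) *
          (l ^ w i * Real.exp (-(z.re * l))) := by
        refine setIntegral_congr_fun measurableSet_Ioi fun l hl => ?_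
        have hl0 : (0 : ℝ) < l := hl
        simp only [hF]
        rw [norm_mul, norm_mul, Complex.norm_exp, Complex.norm_real,
          Real.norm_of_nonneg (Kr_nonneg hl0 hv.le), Complex.neg_re, Complex.re_mul_ofReal]
        unfold Kr
        ring
      have e2 := lap_rpow_real (v := w i) (w := z.re) (by linarith) hz0
      unfold Pool.Agent.W263.BSD.lap at e2
      rw [e1, integral_const_mul, e2, norm_mul, norm_ek _ (by exact_mod_cast hz0.ne'),
        Complex.norm_real, Real.norm_of_nonneg hz0.le, add_comm (w i) 1]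
      field_simp
    · have e1 : ∫ l, F i l ∂μ = ∫ l in Ioi (0 : ℝ), (C i / (Real.Gamma (1 + w i) : ℂ)) *
          (((l ^ w i : ℝ) : ℂ) * exp (-(z * l))) := by
        refine integral_congr_ae (ae_of_all _ fun l => ?_)
        simp only [hF, Kr]
        push_cast
        ring
      have e2 := lap_rpow hv hz0
      unfold lapC at e2
      rw [e1, integral_const_mul, e2, add_comm (w i) 1]
      field_simp
  have hs : Summable fun i => ∫ l, ‖F i l‖ ∂μ := by
    refine ((H.summable (z := (z.re : ℂ)) ?_).norm).congr fun i => (hin i).2.1.symm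
    rw [Complex.norm_real, Real.norm_of_nonneg hz0.le]
    exact hz.le
  have h1 := hasSum_integral_of_summable_integral_norm (fun i => (hin i).1) hs
  rw [gs_div]
  have h2 : (fun i => ∫ l, F i l ∂μ) = fun i => C i * ek (w i) z := funext fun i => (hin i).2.2
  rw [h2] at h1
  rw [h1.tsum_eq]
  unfold LC WL
  refine integral_congr_ae (ae_of_all _ fun l => ?_)
  simp only [hF]
  rw [tsum_mul_right]

/-- a series gives a pair -/
theorem Ser.pr (H : Ser w C w₀ X) : Pr (WL w C) (gs w C) w₀ X where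
  w0 := H.w0
  X1 := H.X1
  meas := H.meas
  cont := fun z hz hX => H.gcont z ⟨hz, hX⟩
  diff := fun z hz hX => H.gdiff hz hX
  bd := by
    obtain ⟨B, hB, h⟩ := H.gbd
    exact ⟨B, hB, fun z _ hz => h z hz⟩
  rep := fun _ _ hl hx => H.rep hl hx
  lap := fun _ hz => H.laplace hz

end

section
variable {h h' : ℝ → ℂ} {g g' : ℂ → ℂ} {w₀ w₁ X Y : ℝ}

lemma Pr.X0 (H : Pr h g w₀ X) : 0 < X := by linarith [H.X1]

/-- the bound of the integrand on a line -/
lemma Pr.line (H : Pr h g w₀ X) {x : ℝ} (hx : X ≤ x) : ∃ B : ℝ, 0 ≤ B ∧ ∀ z : ℂ, z.re = x →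
    ‖g z / z‖ ≤ B * (1 + |z.im|) ^ (-(w₀ + 1)) := by
  obtain ⟨B, hB, h1⟩ := H.bd
  have hx0 : 0 < x := H.X0.trans_le hx
  refine ⟨B * (1 + 1 / x) ^ (w₀ + 1), by positivity, fun z hz => ?_⟩
  have hn : x ≤ ‖z‖ := by
    have := re_le_norm z
    rwa [hz] at this
  have h2 := h1 z (by rw [hz]; exact hx0) (hx.trans hn)
  have h3 := nb hx0 (by linarith [H.w0] : 0 ≤ w₀ + 1) hn
  calc _ ≤ _ := h2
    _ ≤ B * ((1 + 1 / x) ^ (w₀ + 1) * (1 + |z.im|) ^ (-(w₀ + 1))) :=
        mul_le_mul_of_nonneg_left h3 hB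
    _ = _ := by ring

/-- continuity on a line -/
lemma Pr.line_cont (H : Pr h g w₀ X) {x : ℝ} (hx : X ≤ x) :
    Continuous fun t : ℝ => g ((x : ℂ) + t * I) / ((x : ℂ) + t * I) := by
  have hx0 : 0 < x := H.X0.trans_le hx
  have hre : ∀ t : ℝ, ((x : ℂ) + t * I).re = x := fun t => by simp
  have hn : ∀ t : ℝ, X ≤ ‖(x : ℂ) + t * I‖ := fun t => by
    have := re_le_norm ((x : ℂ) + t * I)
    rw [hre] at this
    linarith
  have h1 : Continuous fun t : ℝ => g ((x : ℂ) + t * I) := by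
    have h2 : ContinuousOn g {z | 0 < z.re ∧ X ≤ ‖z‖} := fun z hz => H.cont z hz.1 hz.2
    exact h2.comp_continuous (by fun_prop) fun t => ⟨by rw [hre]; exact hx0, hn t⟩
  refine h1.div (by fun_prop) fun t h0 => ?_
  have := hre t
  rw [h0, Complex.zero_re] at this
  linarith

/-- the integrand is integrable -/
lemma Pr.integrable (H : Pr h g w₀ X) {x : ℝ} (hx : X ≤ x) (l : ℝ) :
    Integrable fun t : ℝ => exp (((x : ℂ) + t * I) * l) *
      (g ((x : ℂ) + t * I) / ((x : ℂ) + t * I)) := by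
  obtain ⟨B, hB, h1⟩ := H.line hx
  have hw1 : 1 < w₀ + 1 := by linarith [H.w0]
  refine ((decay_int hw1).const_mul (Real.exp (x * l) * B)).mono'
    ((by fun_prop : Continuous fun t : ℝ => exp (((x : ℂ) + t * I) * l)).mul
      (H.line_cont hx)).aestronglyMeasurable (ae_of_all _ fun t => ?_)
  have hre : ((x : ℂ) + t * I).re = x := by simp
  have him : ((x : ℂ) + t * I).im = t := by simp
  have h2 := h1 _ hre
  rw [him] at h2
  rw [norm_mul, Complex.norm_exp, Complex.re_mul_ofReal, hre, mul_assoc]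
  exact mul_le_mul_of_nonneg_left h2 (Real.exp_pos _).le

/-- **The growth for trivial reasons.** -/
lemma Pr.triv (H : Pr h g w₀ X) : ∃ B : ℝ, 0 ≤ B ∧ ∀ l : ℝ, 0 < l → ‖h l‖ ≤ B * Real.exp (X * l) := by
  obtain ⟨B, hB, h1⟩ := H.line le_rfl
  have hw1 : 1 < w₀ + 1 := by linarith [H.w0]
  have hI : 0 ≤ ∫ t : ℝ, (1 + |t|) ^ (-(w₀ + 1)) := integral_nonneg fun t => by positivity
  refine ⟨(2 * Real.pi)⁻¹ * (B * ∫ t : ℝ, (1 + |t|) ^ (-(w₀ + 1))), by positivity, fun l hl => ?_⟩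
  rw [H.rep l X hl le_rfl]
  have hre : ∀ t : ℝ, ((X : ℂ) + t * I).re = X := fun t => by simp
  have him : ∀ t : ℝ, ((X : ℂ) + t * I).im = t := fun t => by simp
  have h2 := norm_V_le (H := fun z => exp (z * l) * (g z / z)) (c := X)
    (g := fun t => (Real.exp (X * l) * B) * (1 + |t|) ^ (-(w₀ + 1)))
    ((decay_int hw1).const_mul _) fun t => by
      have e1 := h1 (X + t * I) (hre t)
      rw [him] at e1
      rw [norm_mul, Complex.norm_exp, Complex.re_mul_ofReal, hre, mul_assoc]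
      exact mul_le_mul_of_nonneg_left e1 (Real.exp_pos _).le
  rw [integral_const_mul] at h2
  refine h2.trans (le_of_eq ?_)
  ring

lemma Pr.lint (H : Pr h g w₀ X) {z : ℂ} (hz : X < z.re) :
    IntegrableOn (fun l : ℝ => h l * exp (-(z * l))) (Ioi 0) := by
  obtain ⟨B, hB, h1⟩ := H.triv
  have h2 : IntegrableOn (fun u : ℝ => B * Real.exp (-(z.re - X) * u)) (Ioi 0) :=
    (integrableOn_exp_mul_Ioi (by linarith) 0).const_mul _
  refine Integrable.mono' h2 (H.meas.mul (by fun_prop)) ?_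
  filter_upwards [ae_restrict_mem measurableSet_Ioi] with u hu
  rw [norm_mul, Complex.norm_exp, Complex.neg_re, Complex.re_mul_ofReal]
  calc ‖h u‖ * Real.exp (-(z.re * u)) ≤ B * Real.exp (X * u) * Real.exp (-(z.re * u)) :=
        mul_le_mul_of_nonneg_right (h1 u hu) (Real.exp_pos _).le
    _ = _ := by
      rw [mul_assoc, ← Real.exp_add]
      congr 2
      ring

/-- enlarging the threshold and lowering the exponent -/
lemma Pr.mono (H : Pr h g w₀ X) (hw : 0 < w₁) (hw1 : w₁ ≤ w₀) (hXY : X ≤ Y) : Pr h g w₁ Y where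
  w0 := hw
  X1 := H.X1.trans hXY
  meas := H.meas
  cont := fun z hz hX => (H.cont z hz (hXY.trans hX)).mono fun z hz => ⟨hz.1, hXY.trans hz.2⟩
  diff := fun z hz hX => H.diff z hz (hXY.trans_lt hX)
  bd := by
    obtain ⟨B, hB, h1⟩ := H.bd
    refine ⟨B, hB, fun z hz hY => (h1 z hz (hXY.trans hY)).trans ?_⟩
    refine mul_le_mul_of_nonneg_left ?_ hB
    exact Real.rpow_le_rpow_of_exponent_le (H.X1.trans (hXY.trans hY)) (by linarith)
  rep := fun l x hl hx => H.rep l x hl (hXY.trans hx)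
  lap := fun z hz => H.lap z (hXY.trans_lt hz)

/-- pairs can be added -/
lemma Pr.add (H : Pr h g w₀ X) (H' : Pr h' g' w₀ X) :
    Pr (fun l => h l + h' l) (fun z => g z + g' z) w₀ X where
  w0 := H.w0
  X1 := H.X1
  meas := H.meas.add H'.meas
  cont := fun z hz hX => (H.cont z hz hX).add (H'.cont z hz hX)
  diff := fun z hz hX => (H.diff z hz hX).add (H'.diff z hz hX)
  bd := by
    obtain ⟨B, hB, h1⟩ := H.bd
    obtain ⟨B', hB', h1'⟩ := H'.bd
    refine ⟨B + B', by positivity, fun z hz hX => ?_⟩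
    rw [add_div, add_mul]
    exact (norm_add_le _ _).trans (add_le_add (h1 z hz hX) (h1' z hz hX))
  rep := fun l x hl hx => by
    rw [H.rep l x hl hx, H'.rep l x hl hx]
    unfold V
    rw [← mul_add, ← integral_add (H.integrable hx l) (H'.integrable hx l)]
    congr 2
    funext t
    ring
  lap := fun z hz => by
    rw [add_div, ← H.lap z hz, ← H'.lap z hz]
    unfold LC
    rw [← integral_add (H.lint hz) (H'.lint hz)]
    congr 1
    funext l
    ring

end

end Pool.Agent.E8helper66.ML
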