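import Pool.Agent.E8helper66.ML.Grow
import Pool.Agent.TH942.SL.Lim

/-!
# Zeros
-/

set_option autoImplicit false

open MeasureTheory Filter Topology Set Complex
open Pool.Agent.TH942.SL
open Pool.Agent.E8helper66.BM (Kr)

namespace Pool.Agent.E8helper66.ML

/-- the entire exponential integral `∫_0^x (e^t - 1) / t dt` -/
noncomputable def Ein (x : ℂ) : ℂ := ∑' k : ℕ, x ^ (k + 1) / (((k + 1 : ℕ) : ℂ) * ((k + 1).factorial : ℂ))

/-- the exponents and coefficients -/
noncomputable def wE (k : ℕ) : ℝ := ((k + 1 : ℕ) : ℝ)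

/-- the coefficients -/
noncomputable def cE (a : ℂ) (k : ℕ) : ℂ := a ^ (k + 1) / ((k + 1 : ℕ) : ℂ)

lemma ser_E {a : ℂ} {X : ℝ} (hX : 1 ≤ X) (ha : ‖a‖ < X) : Ser wE (cE a) 1 X where
  w0 := one_pos
  X1 := hX
  ge := fun k => by
    unfold wE
    push_cast
    have : (0 : ℝ) ≤ k := Nat.cast_nonneg k
    linarith
  sum := by
    have hX0 : 0 < X := by linarith
    have hr : ‖a‖ / X < 1 := (div_lt_one hX0).2 ha
    have h1 : Summable fun k : ℕ => (‖a‖ / X) ^ (k + 1) :=
      (summable_nat_add_iff 1).2 (summable_geometric_of_lt_one (by positivity) hr)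
    refine Summable.of_nonneg_of_le (fun k => by positivity) (fun k => ?_) h1
    unfold wE cE
    rw [norm_div, norm_pow, Complex.norm_natCast, Real.rpow_neg hX0.le, Real.rpow_natCast, div_pow,
      ← div_eq_mul_inv]
    refine div_le_div_of_nonneg_right ?_ (by positivity)
    refine div_le_self (by positivity) ?_
    push_cast
    have : (0 : ℝ) ≤ k := Nat.cast_nonneg k
    linarith

lemma WL_E (a : ℂ) (l : ℝ) : WL wE (cE a) l = Ein (a * l) := by
  unfold WL Ein
  refine tsum_congr fun k => ?_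
  unfold Kr wE cE
  rw [add_comm 1, Real.Gamma_nat_eq_factorial, Real.rpow_natCast, mul_pow]
  push_cast
  have h1 : ((k : ℂ) + 1) ≠ 0 := by exact_mod_cast Nat.succ_ne_zero k
  have h2 : (((k + 1).factorial : ℕ) : ℂ) ≠ 0 := by exact_mod_cast Nat.factorial_ne_zero _
  field_simp

lemma gs_E {a z : ℂ} (hz : ‖a‖ < ‖z‖) : gs wE (cE a) z = -log (1 - a / z) := by
  have hn : 0 < ‖z‖ := (norm_nonneg _).trans_lt hz
  have hz1 : z ≠ 0 := norm_pos_iff.1 hn
  have h1 : ‖a / z‖ < 1 := by
    rw [norm_div, div_lt_one hn]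
    exact hz
  have h2 := Complex.hasSum_taylorSeries_neg_log h1
  have h3 := (hasSum_nat_add_iff' 1).2 h2
  simp only [Finset.range_one, Finset.sum_singleton, pow_zero, Nat.cast_zero, div_zero,
    sub_zero] at h3
  rw [← h3.tsum_eq]
  unfold gs
  refine tsum_congr fun k => ?_
  unfold wE cE
  have e1 : exp (-((((k + 1 : ℕ) : ℝ) : ℂ) * log z)) = (z ^ (k + 1))⁻¹ := by
    rw [Complex.exp_neg, Complex.ofReal_natCast, Complex.exp_nat_mul, Complex.exp_log hz1]
  rw [e1, div_pow]
  field_simp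

section
variable {h h' : ℝ → ℂ} {g g' : ℂ → ℂ} {w₀ X A : ℝ}

/-- change of the functions -/
lemma Pr.congr (H : Pr h g w₀ X) (hh : ∀ l, 0 < l → h' l = h l)
    (hg : ∀ z : ℂ, 0 < z.re → X ≤ ‖z‖ → g' z = g z) : Pr h' g' w₀ X where
  w0 := H.w0
  X1 := H.X1
  meas := by
    refine H.meas.congr ?_
    filter_upwards [ae_restrict_mem measurableSet_Ioi] with l hl
    exact (hh l hl).symm
  cont := fun z hz hX => (H.cont z hz hX).congr (fun w hw => hg w hw.1 hw.2) (hg z hz hX)
  diff := fun z hz hX => by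
    have ho : IsOpen {z : ℂ | 0 < z.re ∧ X < ‖z‖} :=
      (isOpen_lt continuous_const Complex.continuous_re).inter
        (isOpen_lt continuous_const continuous_norm)
    refine (H.diff z hz hX).congr_of_eventuallyEq ?_
    filter_upwards [ho.mem_nhds (show z ∈ {z : ℂ | 0 < z.re ∧ X < ‖z‖} from ⟨hz, hX⟩)] with w hw
    exact hg w hw.1 hw.2.le
  bd := by
    obtain ⟨B, hB, h1⟩ := H.bd
    refine ⟨B, hB, fun z hz hX => ?_⟩
    rw [hg z hz hX]
    exact h1 z hz hX
  rep := fun l x hl hx => by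
    rw [hh l hl, H.rep l x hl hx]
    unfold V
    congr 2
    funext t
    have hx0 : 0 < x := H.X0.trans_le hx
    have hre : ((x : ℂ) + t * I).re = x := by simp
    have hn : X ≤ ‖(x : ℂ) + t * I‖ := by
      have := re_le_norm ((x : ℂ) + t * I)
      rw [hre] at this
      linarith
    simp only
    rw [hg _ (by rw [hre]; exact hx0) hn]
  lap := fun z hz => by
    have h1 : LC h' z = LC h z := by
      unfold LC
      refine setIntegral_congr_fun measurableSet_Ioi fun l hl => ?_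
      change h' l * _ = h l * _
      rw [hh l hl]
    rw [h1, H.lap z hz, hg z (H.X0.trans hz) (hz.le.trans (re_le_norm z))]

/-- the pair of one zero -/
lemma pr_E {a : ℂ} (hX : 1 ≤ X) (ha : ‖a‖ < X) :
    Pr (fun l => Ein (a * l)) (fun z => -log (1 - a / z)) 1 X :=
  (ser_E hX ha).pr.congr (fun l _ => (WL_E a l).symm)
    fun _ _ hX => (gs_E (ha.trans_le hX)).symm

/-- the zero pair -/
lemma pr_zero (hw : 0 < w₀) (hX : 1 ≤ X) : Pr (fun _ => 0) (fun _ => 0) w₀ X where
  w0 := hw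
  X1 := hX
  meas := aestronglyMeasurable_const
  cont := fun _ _ _ => continuousWithinAt_const
  diff := fun _ _ _ => differentiableAt_const _
  bd := ⟨0, le_rfl, fun z _ _ => by simp⟩
  rep := fun l x _ _ => by simp [V]
  lap := fun z _ => by simp [LC]

/-- the sum over the zeros -/
noncomputable def hZ (Z : Multiset ℂ) (l : ℝ) : ℂ := (Z.map fun a => Ein (a * l)).sum

/-- its transform -/
noncomputable def gZ (Z : Multiset ℂ) (z : ℂ) : ℂ := (Z.map fun a => -log (1 - a / z)).sum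

/-- the product -/
noncomputable def pZ (Z : Multiset ℂ) (z : ℂ) : ℂ := (Z.map fun a => 1 - a / z).prod

lemma pr_Z (hX : 1 ≤ X) (Z : Multiset ℂ) (hZX : ∀ a ∈ Z, ‖a‖ < X) : Pr (hZ Z) (gZ Z) 1 X := by
  induction Z using Multiset.induction_on with
  | empty =>
    refine (pr_zero one_pos hX).congr (fun l _ => ?_) fun z _ _ => ?_
    · simp [hZ]
    · simp [gZ]
  | cons a Z ih =>
    have h1 := pr_E hX (hZX a (Multiset.mem_cons_self a Z))
    have h2 := ih fun b hb => hZX b (Multiset.mem_cons_of_mem hb)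
    refine (h1.add h2).congr (fun l _ => ?_) fun z _ _ => ?_
    · simp [hZ]
    · simp [gZ]

lemma exp_gZ (Z : Multiset ℂ) {z : ℂ} (hZX : ∀ a ∈ Z, ‖a‖ < ‖z‖) :
    exp (gZ Z z) * pZ Z z = 1 := by
  induction Z using Multiset.induction_on with
  | empty => simp [gZ, pZ]
  | cons a Z ih =>
    have h1 := hZX a (Multiset.mem_cons_self a Z)
    have h2 := ih fun b hb => hZX b (Multiset.mem_cons_of_mem hb)
    have hn : 0 < ‖z‖ := (norm_nonneg _).trans_lt h1
    have h3 : 1 - a / z ≠ 0 := by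
      intro h0
      have e1 : a / z = 1 := by linear_combination -h0
      have e2 : ‖a / z‖ < 1 := by
        rw [norm_div, div_lt_one hn]
        exact h1
      rw [e1, norm_one] at e2
      exact lt_irrefl _ e2
    have e1 : gZ (a ::ₘ Z) z = -log (1 - a / z) + gZ Z z := by simp [gZ]
    have e2 : pZ (a ::ₘ Z) z = (1 - a / z) * pZ Z z := by simp [pZ]
    rw [e1, e2, Complex.exp_add, Complex.exp_neg, Complex.exp_log h3]
    calc (1 - a / z)⁻¹ * exp (gZ Z z) * ((1 - a / z) * pZ Z z) =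
          ((1 - a / z)⁻¹ * (1 - a / z)) * (exp (gZ Z z) * pZ Z z) := by ring
      _ = 1 := by rw [inv_mul_cancel₀ h3, h2, one_mul]

lemma pZ_diff (Z : Multiset ℂ) {z : ℂ} (hz : z ≠ 0) : DifferentiableAt ℂ (pZ Z) z := by
  induction Z using Multiset.induction_on with
  | empty =>
    have : pZ 0 = fun _ => 1 := by
      funext z
      simp [pZ]
    rw [this]
    exact differentiableAt_const _
  | cons a Z ih =>
    have : pZ (a ::ₘ Z) = fun z => (1 - a / z) * pZ Z z := by
      funext z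
      simp [pZ]
    rw [this]
    refine DifferentiableAt.mul ?_ ih
    exact (differentiableAt_const _).sub ((differentiableAt_const _).div differentiableAt_id hz)

lemma pZ_eq_zero {Z : Multiset ℂ} {z : ℂ} (hz : z ≠ 0) : pZ Z z = 0 ↔ z ∈ Z := by
  unfold pZ
  rw [Multiset.prod_eq_zero_iff, Multiset.mem_map]
  constructor
  · rintro ⟨a, ha, h0⟩
    have e1 : a / z = 1 := by linear_combination -h0
    rw [div_eq_one_iff_eq hz] at e1
    rwa [← e1]
  · intro h
    exact ⟨z, h, by rw [div_self hz, sub_self]⟩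

/-- the bound for the norms -/
noncomputable def mx (Z : Multiset ℂ) : ℝ := (Z.map fun a => ‖a‖).sum + 1

lemma lt_mx {Z : Multiset ℂ} {a : ℂ} (ha : a ∈ Z) : ‖a‖ < mx Z := by
  unfold mx
  have h1 : ‖a‖ ≤ (Z.map fun a => ‖a‖).sum :=
    Multiset.single_le_sum (fun x hx => by
      obtain ⟨b, -, rfl⟩ := Multiset.mem_map.1 hx
      exact norm_nonneg b) _ (Multiset.mem_map_of_mem _ ha)
  linarith

lemma mx_one (Z : Multiset ℂ) : 1 ≤ mx Z := by
  unfold mx
  have : 0 ≤ (Z.map fun a => ‖a‖).sum := Multiset.sum_nonneg fun x hx => by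
    obtain ⟨b, -, rfl⟩ := Multiset.mem_map.1 hx
    exact norm_nonneg b
  linarith

/-- the pair with zeros -/
lemma Pr.withZ (H : Pr h g w₀ X) (Z : Multiset ℂ) : Pr (fun l => h l + hZ Z l)
    (fun z => g z + gZ Z z) (min w₀ 1) (max X (mx Z)) := by
  have h1 := H.mono (w₁ := min w₀ 1) (lt_min H.w0 one_pos) (min_le_left _ _)
    (le_max_left X (mx Z))
  have h2 := (pr_Z (mx_one Z) Z fun a ha => lt_mx ha).mono (w₁ := min w₀ 1)
    (lt_min H.w0 one_pos) (min_le_right _ _) (le_max_right X (mx Z))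
  exact h1.add h2

/-- **The logarithm.** -/
theorem Pr.log (H : Pr h g w₀ X) (hA : 0 ≤ A) {G : ℂ → ℂ}
    (hG : ∀ z ∈ HA A, DifferentiableAt ℂ G z) (hne : ∀ z ∈ HA A, G z ≠ 0)
    (hfar : ∀ z ∈ HA A, X < ‖z‖ → G z = exp (g z)) :
    ∃ f : ℂ → ℂ, (∀ z ∈ HA A, DifferentiableAt ℂ f z) ∧ ∀ z ∈ HA A, X < ‖z‖ → f z = g z := by
  have hdχ : DifferentiableOn ℂ G (HA A) := fun z hz => (hG z hz).differentiableWithinAt
  have hdd : DifferentiableOn ℂ (fun z => deriv G z / G z) (HA A) :=
    (hdχ.deriv (HA_open A)).div hdχ hne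
  obtain ⟨F, hF⟩ := convex_primitive (HA_open A) (HA_convex A) hdd
  set X₁ : ℝ := max X A with hX₁
  have hX₁0 : X ≤ X₁ := le_max_left _ _
  have hX₁A : A ≤ X₁ := le_max_right _ _
  set w₀ : ℂ := ((X₁ + 1 : ℝ) : ℂ) with hw₀
  have hre : w₀.re = X₁ + 1 := by rw [hw₀, Complex.ofReal_re]
  set f : ℂ → ℂ := fun v => F v + (g w₀ - F w₀) with hf
  have hfd : ∀ v ∈ HA A, HasDerivAt f (deriv G v / G v) v := fun v hv => (hF v hv).add_const _
  have hfw : f w₀ = g w₀ := by
    rw [hf]
    simp only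
    ring
  refine ⟨f, fun z hz => (hfd z hz).differentiableAt, fun z hz hzX => ?_⟩
  set W : Set ℂ := {v | X₁ < v.re} with hW
  have hWo : IsOpen W := isOpen_lt continuous_const Complex.continuous_re
  have hWc : Convex ℝ W := convex_halfSpace_re_gt X₁
  have hw₀W : w₀ ∈ W := by
    change X₁ < w₀.re
    rw [hre]
    linarith
  have hWx : ∀ v ∈ W, v ∈ HA A ∧ X < ‖v‖ := fun v hv => by
    have hv' : X₁ < v.re := hv
    exact ⟨lt_of_le_of_lt hX₁A hv', (lt_of_le_of_lt hX₁0 hv').trans_le (re_le_norm v)⟩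
  have hdz : ∀ v ∈ W, HasDerivAt (fun v => f v - g v) 0 v := by
    intro v hv
    obtain ⟨hvA, hvX⟩ := hWx v hv
    have hg := (H.diff v (HA_pos hA hvA) hvX).hasDerivAt
    refine ((hfd v hvA).sub hg).congr_deriv ?_
    have e1 : HasDerivAt G (exp (g v) * deriv g v) v := by
      refine hg.cexp.congr_of_eventuallyEq ?_
      filter_upwards [hWo.mem_nhds hv] with w hw
      exact hfar w (hWx w hw).1 (hWx w hw).2
    rw [e1.deriv, hfar v hvA hvX]
    have := Complex.exp_ne_zero (g v)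
    field_simp
    ring
  refine H.spread hA (fun z hz => (hfd z hz).differentiableAt) (Y := X₁) (fun v _ hvX => ?_) hz hzX
  have e1 : f v - g v = f w₀ - g w₀ :=
    const_of_deriv hWo hWc (f := fun v => f v - g v) hdz (show v ∈ W from hvX) hw₀W
  rw [hfw, sub_self] at e1
  exact sub_eq_zero.1 e1

/-- **Without zeros.** -/
theorem Pr.free (H : Pr h g w₀ X) (hA : 0 ≤ A) {G : ℂ → ℂ}
    (hG : ∀ z ∈ HA A, DifferentiableAt ℂ G z) (hne : ∀ z ∈ HA A, G z ≠ 0)
    (hfar : ∀ z ∈ HA A, X < ‖z‖ → G z = exp (g z)) {a : ℝ} (ha : A < a) :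
    ∃ C : ℝ, 0 ≤ C ∧ ∀ l : ℝ, 0 < l → ‖h l‖ ≤ C * Real.exp (a * l) := by
  obtain ⟨f, hf, hff⟩ := H.log hA hG hne hfar
  exact H.up hA hf hff ha

end

/-! ### division by the zeros -/

/-- removal of the zeros at finitely many points -/
lemma divide_finset {U : Set ℂ} (hU : IsOpen U) (hUc : IsPreconnected U) {p₀ : ℂ} (hp₀ : p₀ ∈ U)
    {G : ℂ → ℂ} (hG : ∀ z ∈ U, DifferentiableAt ℂ G z) (hG0 : G p₀ ≠ 0) (T : Finset ℂ) :
    (∀ a ∈ T, a ∈ U) → (p₀ ∉ T) → ∃ (Z : Multiset ℂ) (H : ℂ → ℂ), (∀ a ∈ Z, a ∈ T) ∧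
      (∀ z ∈ U, DifferentiableAt ℂ H z) ∧ (∀ z ∈ U, G z = (Z.map fun a => z - a).prod * H z) ∧
      ∀ a ∈ T, H a ≠ 0 := by
  classical
  induction T using Finset.induction_on with
  | empty =>
    intro _ _
    exact ⟨0, G, by simp, hG, by simp, by simp⟩
  | insert a T haT ih =>
    intro hT hp
    obtain ⟨Z, H, hZT, hHd, hfac, hne⟩ := ih (fun b hb => hT b (Finset.mem_insert_of_mem hb))
      (fun hb => hp (Finset.mem_insert_of_mem hb))
    have haU : a ∈ U := hT a (Finset.mem_insert_self _ _)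
    have hHa : AnalyticOnNhd ℂ H U :=
      DifferentiableOn.analyticOnNhd (fun z hz => (hHd z hz).differentiableWithinAt) hU
    have hord : analyticOrderAt H a ≠ ⊤ := by
      intro htop
      rw [analyticOrderAt_eq_top] at htop
      have h1 := hHa.eqOn_zero_of_preconnected_of_eventuallyEq_zero hUc haU htop
      have h2 := hfac p₀ hp₀
      rw [h1 hp₀] at h2
      apply hG0
      rw [h2]
      simp
    obtain ⟨g, hga, hg0, hgH⟩ := (hHa a haU).analyticOrderAt_ne_top.1 hord
    set n : ℕ := analyticOrderNatAt H a with hn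
    set H₂ : ℂ → ℂ := fun z => if z = a then g a else H z / (z - a) ^ n with hH₂
    have hpow : ∀ z, z ≠ a → (z - a) ^ n ≠ 0 := fun z hz => pow_ne_zero _ (sub_ne_zero.2 hz)
    refine ⟨Z + Multiset.replicate n a, H₂, fun b hb => ?_, fun z hz => ?_, fun z hz => ?_,
      fun b hb => ?_⟩
    · rw [Multiset.mem_add] at hb
      rcases hb with hb | hb
      · exact Finset.mem_insert_of_mem (hZT b hb)
      · rw [Multiset.eq_of_mem_replicate hb]
        exact Finset.mem_insert_self _ _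
    · by_cases hza : z = a
      · subst hza
        have h1 : H₂ =ᶠ[𝓝 z] g := by
          filter_upwards [hgH] with w hw
          rw [hH₂]
          simp only
          by_cases hwz : w = z
          · rw [if_pos hwz, hwz]
          · rw [if_neg hwz, hw, smul_eq_mul, mul_comm, mul_div_assoc, div_self (hpow w hwz), mul_one]
        exact hga.differentiableAt.congr_of_eventuallyEq h1
      · have h1 : H₂ =ᶠ[𝓝 z] fun w => H w / (w - a) ^ n := by
          filter_upwards [isOpen_ne.mem_nhds hza] with w hw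
          rw [hH₂]
          simp only
          rw [if_neg hw]
        refine DifferentiableAt.congr_of_eventuallyEq ?_ h1
        refine (hHd z hz).div (by fun_prop) (hpow z hza)
    · have h2 : ((Z + Multiset.replicate n a).map fun a => z - a).prod =
          (Z.map fun a => z - a).prod * (z - a) ^ n := by
        rw [Multiset.map_add, Multiset.prod_add, Multiset.map_replicate, Multiset.prod_replicate]
      rw [h2, hfac z hz, mul_assoc]
      congr 1
      rw [hH₂]
      simp only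
      by_cases hza : z = a
      · rw [if_pos hza]
        have h3 := hgH.self_of_nhds
        simp only [smul_eq_mul] at h3
        rw [hza]
        exact h3
      · rw [if_neg hza]
        field_simp [hpow z hza]
    · rw [hH₂]
      simp only
      by_cases hba : b = a
      · rw [if_pos hba]
        exact hg0
      · rw [if_neg hba]
        have hbT : b ∈ T := (Finset.mem_insert.1 hb).resolve_left hba
        exact div_ne_zero (hne b hbT) (hpow b hba)

/-- **Removal of the zeros in a compact set.** -/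
theorem divide {U K : Set ℂ} (hU : IsOpen U) (hUc : IsPreconnected U) {p₀ : ℂ} (hp₀ : p₀ ∈ U)
    {G : ℂ → ℂ} (hG : ∀ z ∈ U, DifferentiableAt ℂ G z) (hG0 : G p₀ ≠ 0) (hK : IsCompact K)
    (hKU : K ⊆ U) : ∃ (Z : Multiset ℂ) (H : ℂ → ℂ), (∀ a ∈ Z, a ∈ K ∧ G a = 0) ∧
      (∀ z ∈ U, DifferentiableAt ℂ H z) ∧ (∀ z ∈ U, G z = (Z.map fun a => z - a).prod * H z) ∧
      ∀ z ∈ K, H z ≠ 0 := by
  have hGa : AnalyticOnNhd ℂ G U :=
    DifferentiableOn.analyticOnNhd (fun z hz => (hG z hz).differentiableWithinAt) hU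
  have hfin : {z | z ∈ K ∧ G z = 0}.Finite := by
    by_contra hinf
    obtain ⟨x, hxK, hx⟩ := Set.Infinite.exists_accPt_of_subset_isCompact hinf hK fun z hz => hz.1
    have h1 : ∃ᶠ z in 𝓝[≠] x, G z = 0 := by
      rw [accPt_iff_frequently_nhdsNE] at hx
      exact hx.mono fun z hz => hz.2
    exact hG0 (hGa.eqOn_zero_of_preconnected_of_frequently_eq_zero hUc (hKU hxK) h1 hp₀)
  obtain ⟨Z, H, h1, h2, h3, h4⟩ := divide_finset hU hUc hp₀ hG hG0 hfin.toFinset
    (fun a ha => hKU ((Set.Finite.mem_toFinset hfin).1 ha).1)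
    (fun ha => hG0 ((Set.Finite.mem_toFinset hfin).1 ha).2)
  refine ⟨Z, H, fun a ha => (Set.Finite.mem_toFinset hfin).1 (h1 a ha), h2, h3, fun z hz h0 => ?_⟩
  by_cases hz0 : G z = 0
  · exact h4 z ((Set.Finite.mem_toFinset hfin).2 ⟨hz, hz0⟩) h0
  · apply hz0
    rw [h3 z (hKU hz), h0, mul_zero]

end Pool.Agent.E8helper66.ML
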